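import Mathlib

set_option autoImplicit false

namespace Pool.Agent.helper38.LSys

open Finset

/-- The set of coordinates on which two tuples agree. -/
def agr {k : ℕ} {V : Type*} [DecidableEq V] (x y : Fin k → V) : Finset (Fin k) :=
  Finset.univ.filter (fun i => x i = y i)

lemma mem_agr {k : ℕ} {V : Type*} [DecidableEq V] (x y : Fin k → V) (i : Fin k) :
    i ∈ agr x y ↔ x i = y i := by simp [agr]

/-- Functional dependency: on `F`, agreement on `A` forces agreement at `j`. -/
def FD {k : ℕ} {V : Type*} (F : Finset (Fin k → V)) (A : Finset (Fin k)) (j : Fin k) : Prop :=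
  ∀ x ∈ F, ∀ y ∈ F, (∀ i ∈ A, x i = y i) → x j = y j

lemma FD.mono {k : ℕ} {V : Type*} {F G : Finset (Fin k → V)} (h : G ⊆ F)
    {A : Finset (Fin k)} {j : Fin k} (hF : FD F A j) : FD G A j :=
  fun x hx y hy hA => hF x (h hx) y (h hy) hA

open Classical in
/-- pairs that are not functional dependencies -/
noncomputable def nonFD {k : ℕ} {V : Type*} (F : Finset (Fin k → V)) :
    Finset (Finset (Fin k) × Fin k) :=
  Finset.univ.filter (fun p => ¬ FD F p.1 p.2)

/-- One cleaning step. -/
lemma step {k : ℕ} {V : Type*} [DecidableEq V] (F : Finset (Fin k → V)) (hF : F.Nonempty)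
    (A : Finset (Fin k)) (hA : A ≠ Finset.univ)
    (hnr : ∀ x ∈ F, ∀ y ∈ F, x ≠ y → agr x y ≠ A) :
    ∃ j, j ∉ A ∧ ∃ G ⊆ F, G.Nonempty ∧ FD G A j ∧ F.card ≤ k * G.card := by
  classical
  obtain ⟨x0, hx0⟩ := hF
  let r : (Fin k → V) → (A → V) := fun x i => x i
  have : Nonempty (Fin k → V) := ⟨x0⟩
  let g : (A → V) → (Fin k → V) := Function.invFunOn r (F : Set (Fin k → V))
  have hg : ∀ x ∈ F, g (r x) ∈ F ∧ r (g (r x)) = r x := by
    intro x hx
    have : ∃ a ∈ (F : Set (Fin k → V)), r a = r x := ⟨x, hx, rfl⟩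
    exact ⟨Function.invFunOn_mem this, Function.invFunOn_eq this⟩
  obtain ⟨j0, hj0⟩ : ∃ j, j ∉ A := by
    by_contra h
    push Not at h
    exact hA (Finset.eq_univ_iff_forall.2 h)
  let Gj : Fin k → Finset (Fin k → V) := fun j => F.filter (fun x => x j = g (r x) j)
  have hcov : ∀ x ∈ F, ∃ j, j ∉ A ∧ x j = g (r x) j := by
    intro x hx
    by_cases hxe : x = g (r x)
    · exact ⟨j0, hj0, by rw [← hxe]⟩
    · have h1 := hnr x hx (g (r x)) (hg x hx).1 hxe
      have h2 : A ⊆ agr x (g (r x)) := by
        intro i hi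
        rw [mem_agr]
        have := congrFun (hg x hx).2 ⟨i, hi⟩
        exact this.symm
      have h3 : ∃ j ∈ agr x (g (r x)), j ∉ A := by
        by_contra h
        push Not at h
        exact h1 (Finset.Subset.antisymm h h2)
      obtain ⟨j, hj, hjA⟩ := h3
      exact ⟨j, hjA, (mem_agr _ _ _).1 hj⟩
  have hFc : 0 < F.card := Finset.card_pos.2 ⟨x0, hx0⟩
  obtain ⟨j, hjA, hj⟩ : ∃ j, j ∉ A ∧ F.card ≤ k * (Gj j).card := by
    by_contra hcon
    push Not at hcon
    have h1 : F ⊆ (Finset.univ.filter (fun j => j ∉ A)).biUnion Gj := by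
      intro x hx
      obtain ⟨j, hj, hxj⟩ := hcov x hx
      simp only [Finset.mem_biUnion, Finset.mem_filter, Finset.mem_univ, true_and]
      exact ⟨j, hj, by simp [Gj, hx, hxj]⟩
    have h2 : F.card ≤ ∑ j ∈ Finset.univ.filter (fun j => j ∉ A), (Gj j).card :=
      (Finset.card_le_card h1).trans Finset.card_biUnion_le
    have hne : (Finset.univ.filter (fun j : Fin k => j ∉ A)).Nonempty := ⟨j0, by simp [hj0]⟩
    have h3 : ∑ j ∈ Finset.univ.filter (fun j => j ∉ A), k * (Gj j).card
        < ∑ j ∈ Finset.univ.filter (fun j : Fin k => j ∉ A), F.card := by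
      apply Finset.sum_lt_sum_of_nonempty hne
      intro j hj
      exact hcon j (by simpa using hj)
    rw [← Finset.mul_sum, Finset.sum_const, smul_eq_mul] at h3
    have h4 : (Finset.univ.filter (fun j : Fin k => j ∉ A)).card ≤ k := by
      simpa using Finset.card_filter_le (Finset.univ : Finset (Fin k)) (fun j => j ∉ A)
    have h5 := Nat.mul_le_mul_left k h2
    have h6 := Nat.mul_le_mul_right F.card h4
    omega
  refine ⟨j, hjA, Gj j, Finset.filter_subset _ _, ?_, ?_, hj⟩
  · rw [← Finset.card_pos]
    rcases Nat.eq_zero_or_pos (Gj j).card with h | h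
    · rw [h] at hj; omega
    · exact h
  · intro x hx y hy hxy
    simp only [Gj, Finset.mem_filter] at hx hy
    have : r x = r y := by
      funext i
      exact hxy i i.2
    rw [hx.2, hy.2, this]

/-- The cleaning lemma (a short form of Füredi's intersection semilattice lemma). -/
lemma clean {k : ℕ} (hk : 1 ≤ k) {V : Type*} [DecidableEq V] (L : Finset ℕ) :
    ∀ (N : ℕ) (F : Finset (Fin k → V)), (nonFD F).card ≤ N → F.Nonempty →
      (∀ x ∈ F, ∀ y ∈ F, x ≠ y → (agr x y).card ∈ L) →
      ∃ G ⊆ F, ∃ I : Finset (Finset (Fin k)), (∀ A ∈ I, ∀ B ∈ I, A ∩ B ∈ I) ∧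
        (∀ A ∈ I, A ≠ Finset.univ) ∧
        (∀ A ∈ I, A.card ∈ L) ∧ (∀ x ∈ G, ∀ y ∈ G, x ≠ y → agr x y ∈ I) ∧
        F.card ≤ k ^ N * G.card := by
  classical
  intro N
  induction N with
  | zero =>
    intro F hN hF hL
    -- all pairs are FDs, so no proper closed set
    have hall : ∀ A j, FD F A j := by
      intro A j
      by_contra h
      have : (A, j) ∈ nonFD F := by simp [nonFD, h]
      have h0 : (nonFD F) = ∅ := Finset.card_eq_zero.1 (Nat.le_zero.1 hN)
      rw [h0] at this
      simp at this
    refine ⟨F, subset_rfl, ∅, by simp, by simp, by simp, ?_, by simp⟩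
    intro x hx y hy hxy
    exfalso
    apply hxy
    funext j
    exact hall ∅ j x hx y hy (by simp)
  | succ N ih =>
    intro F hN hF hL
    by_cases hreal : ∀ A : Finset (Fin k), A ≠ Finset.univ → (∀ j, FD F A j → j ∈ A) →
        ∃ x ∈ F, ∃ y ∈ F, x ≠ y ∧ agr x y = A
    · let I : Finset (Finset (Fin k)) :=
        Finset.univ.filter (fun A => A ≠ Finset.univ ∧ ∀ j, FD F A j → j ∈ A)
      refine ⟨F, subset_rfl, I, ?_, ?_, ?_, ?_, ?_⟩
      · intro A hA B hB
        simp only [I, Finset.mem_filter, Finset.mem_univ, true_and] at hA hB ⊢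
        refine ⟨?_, ?_⟩
        · intro h
          apply hA.1
          rw [Finset.eq_univ_iff_forall] at h ⊢
          intro i
          exact (Finset.mem_inter.1 (h i)).1
        · intro j hj
          rw [Finset.mem_inter]
          refine ⟨hA.2 j ?_, hB.2 j ?_⟩
          · intro x hx y hy h
            exact hj x hx y hy (fun i hi => h i (Finset.mem_inter.1 hi).1)
          · intro x hx y hy h
            exact hj x hx y hy (fun i hi => h i (Finset.mem_inter.1 hi).2)
      · intro A hA
        simp only [I, Finset.mem_filter, Finset.mem_univ, true_and] at hA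
        exact hA.1
      · intro A hA
        simp only [I, Finset.mem_filter, Finset.mem_univ, true_and] at hA
        obtain ⟨x, hx, y, hy, hxy, rfl⟩ := hreal A hA.1 hA.2
        exact hL x hx y hy hxy
      · intro x hx y hy hxy
        simp only [I, Finset.mem_filter, Finset.mem_univ, true_and]
        refine ⟨?_, ?_⟩
        · intro h
          apply hxy
          funext i
          rw [← mem_agr, h]
          simp
        · intro j hj
          rw [mem_agr]
          exact hj x hx y hy (fun i hi => (mem_agr _ _ _).1 hi)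
      · have : 1 ≤ k ^ (N + 1) := Nat.one_le_pow _ _ hk
        nlinarith
    · push Not at hreal
      obtain ⟨A, hA, hcl, hnr⟩ := hreal
      obtain ⟨j, hjA, G, hGF, hGne, hFD, hcard⟩ := step F hF A hA (fun x hx y hy hxy => hnr x hx y hy hxy)
      have hlt : (nonFD G).card < (nonFD F).card := by
        apply Finset.card_lt_card
        rw [Finset.ssubset_iff_of_subset]
        · refine ⟨(A, j), ?_, ?_⟩
          · simp only [nonFD, Finset.mem_filter, Finset.mem_univ, true_and]
            intro h
            exact hjA (hcl j h)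
          · simp [nonFD, hFD]
        · intro p hp
          simp only [nonFD, Finset.mem_filter, Finset.mem_univ, true_and] at hp ⊢
          intro h
          exact hp (h.mono hGF)
      obtain ⟨G', hG'G, I, h1, h2, h3, h4, h5⟩ := ih G (by omega) hGne
        (fun x hx y hy hxy => hL x (hGF hx) y (hGF hy) hxy)
      refine ⟨G', hG'G.trans hGF, I, h1, h2, h3, h4, ?_⟩
      calc F.card ≤ k * G.card := hcard
        _ ≤ k * (k ^ N * G'.card) := Nat.mul_le_mul_left k h5
        _ = k ^ (N + 1) * G'.card := by ring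

end Pool.Agent.helper38.LSys
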