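import Mathlib
import Pool.Agent.helper38.LSys

set_option autoImplicit false

namespace Pool.Agent.helper38.LSys

open Finset

/-- All agreement sets of distinct members of `F` lie in `I`. -/
def Fam {k : ℕ} {V : Type*} [DecidableEq V] (I : Finset (Finset (Fin k)))
    (F : Finset (Fin k → V)) : Prop :=
  ∀ x ∈ F, ∀ y ∈ F, x ≠ y → agr x y ∈ I

open Classical in
/-- The largest family of tuples with agreement sets in `I`. -/
noncomputable def fmax (k : ℕ) (I : Finset (Finset (Fin k))) (n : ℕ) : ℕ :=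
  ((Finset.univ : Finset (Finset (Fin k → Fin n))).filter (fun F => Fam I F)).sup Finset.card

lemma le_fmax {k : ℕ} {I : Finset (Finset (Fin k))} {n : ℕ} {F : Finset (Fin k → Fin n)}
    (hF : Fam I F) : F.card ≤ fmax k I n := by
  classical
  unfold fmax
  exact Finset.le_sup (f := Finset.card) (by simp [hF])

lemma exists_fmax (k : ℕ) (I : Finset (Finset (Fin k))) (n : ℕ) :
    ∃ F : Finset (Fin k → Fin n), Fam I F ∧ F.card = fmax k I n := by
  classical
  unfold fmax
  have hne : ((Finset.univ : Finset (Finset (Fin k → Fin n))).filter (fun F => Fam I F)).Nonempty :=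
    ⟨∅, Finset.mem_filter.2 ⟨Finset.mem_univ _, by intro x hx; simp at hx⟩⟩
  obtain ⟨F, hF, h⟩ := Finset.exists_mem_eq_sup _ hne Finset.card
  exact ⟨F, (Finset.mem_filter.1 hF).2, h.symm⟩

lemma fmax_le (k : ℕ) (I : Finset (Finset (Fin k))) (n : ℕ) : fmax k I n ≤ n ^ k := by
  obtain ⟨F, -, h⟩ := exists_fmax k I n
  rw [← h]
  calc F.card ≤ Fintype.card (Fin k → Fin n) := Finset.card_le_univ _
    _ = n ^ k := by simp

lemma fmax_mul {k : ℕ} {I : Finset (Finset (Fin k))} (hI : ∀ A ∈ I, ∀ B ∈ I, A ∩ B ∈ I)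
    (n₁ n₂ : ℕ) : fmax k I n₁ * fmax k I n₂ ≤ fmax k I (n₁ * n₂) := by
  classical
  obtain ⟨F₁, hF₁, h₁⟩ := exists_fmax k I n₁
  obtain ⟨F₂, hF₂, h₂⟩ := exists_fmax k I n₂
  let φ : (Fin k → Fin n₁) × (Fin k → Fin n₂) → (Fin k → Fin (n₁ * n₂)) :=
    fun p i => finProdFinEquiv (p.1 i, p.2 i)
  have hφ : Function.Injective φ := by
    intro p q h
    have h' : ∀ i, p.1 i = q.1 i ∧ p.2 i = q.2 i := by
      intro i
      have := congrFun h i
      simp only [φ, EmbeddingLike.apply_eq_iff_eq, Prod.mk.injEq] at this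
      exact this
    exact Prod.ext (funext fun i => (h' i).1) (funext fun i => (h' i).2)
  have hagr : ∀ p q, agr (φ p) (φ q) = agr p.1 q.1 ∩ agr p.2 q.2 := by
    intro p q
    ext i
    rw [Finset.mem_inter, mem_agr, mem_agr, mem_agr]
    simp only [φ, EmbeddingLike.apply_eq_iff_eq, Prod.mk.injEq]
  have huniv : ∀ (n : ℕ) (x : Fin k → Fin n), agr x x = Finset.univ := by
    intro n x
    ext i
    simp [mem_agr]
  have hcard : ((F₁ ×ˢ F₂).image φ).card = fmax k I n₁ * fmax k I n₂ := by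
    rw [Finset.card_image_of_injective _ hφ, Finset.card_product, h₁, h₂]
  rw [← hcard]
  apply le_fmax
  intro x hx y hy hxy
  obtain ⟨p, hp, rfl⟩ := Finset.mem_image.1 hx
  obtain ⟨q, hq, rfl⟩ := Finset.mem_image.1 hy
  rw [Finset.mem_product] at hp hq
  rw [hagr]
  by_cases e1 : p.1 = q.1
  · by_cases e2 : p.2 = q.2
    · exact absurd (by rw [Prod.ext e1 e2]) hxy
    · rw [e1, huniv, Finset.univ_inter]
      exact hF₂ _ hp.2 _ hq.2 e2
  · by_cases e2 : p.2 = q.2
    · rw [e2, huniv, Finset.inter_univ]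
      exact hF₁ _ hp.1 _ hq.1 e1
    · exact hI _ (hF₁ _ hp.1 _ hq.1 e1) _ (hF₂ _ hp.2 _ hq.2 e2)

lemma fmax_pow {k : ℕ} {I : Finset (Finset (Fin k))} (hI : ∀ A ∈ I, ∀ B ∈ I, A ∩ B ∈ I)
    (n j : ℕ) : fmax k I n ^ j ≤ fmax k I (n ^ j) := by
  classical
  induction j with
  | zero =>
    have : Fam I ({fun _ => ⟨0, by simp⟩} : Finset (Fin k → Fin (n ^ 0))) := by
      intro x hx y hy hxy
      rw [Finset.mem_singleton] at hx hy
      exact absurd (hx.trans hy.symm) hxy
    have h := le_fmax this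
    rw [Finset.card_singleton] at h
    simpa using h
  | succ j ih =>
    calc fmax k I n ^ (j + 1) = fmax k I n ^ j * fmax k I n := pow_succ _ _
      _ ≤ fmax k I (n ^ j) * fmax k I n := Nat.mul_le_mul_right _ ih
      _ ≤ fmax k I (n ^ j * n) := fmax_mul hI _ _
      _ = fmax k I (n ^ (j + 1)) := by rw [pow_succ]

/-- the maximum of the problem -/
noncomputable def mm (n k : ℕ) (L : Finset ℕ) : ℕ :=
  sSup {s : ℕ | ∃ F : Finset (Finset (Fin n)), F.card = s ∧
              (∀ A ∈ F, A.card = k) ∧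
              ∀ A ∈ F, ∀ B ∈ F, A ≠ B → (A ∩ B).card ∈ L}

lemma mm_bdd (n k : ℕ) (L : Finset ℕ) : BddAbove {s : ℕ | ∃ F : Finset (Finset (Fin n)), F.card = s ∧
              (∀ A ∈ F, A.card = k) ∧
              ∀ A ∈ F, ∀ B ∈ F, A ≠ B → (A ∩ B).card ∈ L} := by
  refine ⟨Fintype.card (Finset (Fin n)), ?_⟩
  rintro s ⟨F, rfl, -⟩
  exact Finset.card_le_univ _

lemma le_mm {n k : ℕ} {L : Finset ℕ} (F : Finset (Finset (Fin n))) (h1 : ∀ A ∈ F, A.card = k)
    (h2 : ∀ A ∈ F, ∀ B ∈ F, A ≠ B → (A ∩ B).card ∈ L) : F.card ≤ mm n k L :=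
  le_csSup (mm_bdd n k L) ⟨F, rfl, h1, h2⟩

lemma exists_mm (n k : ℕ) (L : Finset ℕ) : ∃ F : Finset (Finset (Fin n)), F.card = mm n k L ∧
              (∀ A ∈ F, A.card = k) ∧
              ∀ A ∈ F, ∀ B ∈ F, A ≠ B → (A ∩ B).card ∈ L := by
  have hne : {s : ℕ | ∃ F : Finset (Finset (Fin n)), F.card = s ∧
              (∀ A ∈ F, A.card = k) ∧
              ∀ A ∈ F, ∀ B ∈ F, A ≠ B → (A ∩ B).card ∈ L}.Nonempty :=
    ⟨0, ∅, by simp, by simp, by simp⟩
  exact Nat.sSup_mem hne (mm_bdd n k L)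

lemma mm_mono {n n' k : ℕ} {L : Finset ℕ} (h : n ≤ n') : mm n k L ≤ mm n' k L := by
  classical
  obtain ⟨F, hF, h1, h2⟩ := exists_mm n k L
  rw [← hF]
  let e : Fin n ↪ Fin n' := Fin.castLEEmb h
  have hinj : Function.Injective (Finset.map e) := Finset.map_injective e
  rw [← Finset.card_image_of_injective F hinj]
  apply le_mm
  · intro A hA
    obtain ⟨B, hB, rfl⟩ := Finset.mem_image.1 hA
    rw [Finset.card_map]
    exact h1 B hB
  · intro A hA B hB hAB
    obtain ⟨A', hA', rfl⟩ := Finset.mem_image.1 hA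
    obtain ⟨B', hB', rfl⟩ := Finset.mem_image.1 hB
    rw [← Finset.map_inter, Finset.card_map]
    exact h2 A' hA' B' hB' (fun h => hAB (by rw [h]))

lemma fmax_le_mm {k : ℕ} {I : Finset (Finset (Fin k))} {L : Finset ℕ} (hI : ∀ A ∈ I, A.card ∈ L)
    (n : ℕ) : fmax k I n ≤ mm (k * n) k L := by
  classical
  obtain ⟨F, hF, h⟩ := exists_fmax k I n
  rw [← h]
  let φ : (Fin k → Fin n) → Finset (Fin (k * n)) :=
    fun x => Finset.univ.image (fun i => finProdFinEquiv (i, x i))
  have hmem : ∀ x i v, finProdFinEquiv (i, v) ∈ φ x ↔ x i = v := by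
    intro x i v
    simp only [φ, Finset.mem_image, Finset.mem_univ, true_and, EmbeddingLike.apply_eq_iff_eq,
      Prod.mk.injEq]
    constructor
    · rintro ⟨j, rfl, h⟩
      exact h
    · intro h
      exact ⟨i, rfl, h⟩
  have hφ : Function.Injective φ := by
    intro x y hxy
    funext i
    have : finProdFinEquiv (i, x i) ∈ φ x := (hmem x i (x i)).2 rfl
    rw [hxy] at this
    exact ((hmem y i (x i)).1 this).symm
  have hinj : ∀ x : Fin k → Fin n, Function.Injective
      (fun i => (finProdFinEquiv (i, x i) : Fin (k * n))) := by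
    intro x i j hij
    simp only [EmbeddingLike.apply_eq_iff_eq, Prod.mk.injEq] at hij
    exact hij.1
  rw [← Finset.card_image_of_injective F hφ]
  apply le_mm
  · intro A hA
    obtain ⟨x, hx, rfl⟩ := Finset.mem_image.1 hA
    simp only [φ]
    rw [Finset.card_image_of_injective _ (hinj x)]
    simp
  · intro A hA B hB hAB
    obtain ⟨x, hx, rfl⟩ := Finset.mem_image.1 hA
    obtain ⟨y, hy, rfl⟩ := Finset.mem_image.1 hB
    have hxy : x ≠ y := fun h => hAB (by rw [h])
    have : φ x ∩ φ y = (agr x y).image (fun i => finProdFinEquiv (i, x i)) := by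
      ext w
      obtain ⟨⟨i, v⟩, rfl⟩ := finProdFinEquiv.surjective w
      rw [Finset.mem_inter, hmem, hmem, Finset.mem_image]
      constructor
      · rintro ⟨h1, h2⟩
        exact ⟨i, (mem_agr _ _ _).2 (h1.trans h2.symm), by rw [h1]⟩
      · rintro ⟨j, hj, hj'⟩
        rw [mem_agr] at hj
        simp only [EmbeddingLike.apply_eq_iff_eq, Prod.mk.injEq] at hj'
        obtain ⟨rfl, h⟩ := hj'
        exact ⟨h, hj ▸ h⟩
    rw [this, Finset.card_image_of_injective _ (hinj x)]
    exact hI _ (hF x hx y hy hxy)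

/-- Number of colourings injective on a given `k`-set. -/
lemma good_colourings {n k : ℕ} (A : Finset (Fin n)) (hA : A.card = k) :
    k ^ n ≤ k ^ k * ((Finset.univ : Finset (Fin n → Fin k)).filter
      (fun χ => Set.InjOn χ (A : Set (Fin n)))).card := by
  classical
  let e : A ≃ Fin k := A.equivFinOfCardEq hA
  let ov : (Fin n → Fin k) → (Fin n → Fin k) :=
    fun ψ v => if h : v ∈ A then e ⟨v, h⟩ else ψ v
  have hov : ∀ ψ, Set.InjOn (ov ψ) (A : Set (Fin n)) := by
    intro ψ v hv w hw hvw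
    have hv' : v ∈ A := hv
    have hw' : w ∈ A := hw
    simp only [ov, hv', hw', dif_pos, EmbeddingLike.apply_eq_iff_eq, Subtype.mk.injEq] at hvw
    exact hvw
  let G := ((Finset.univ : Finset (Fin n → Fin k)).filter
      (fun χ => Set.InjOn χ (A : Set (Fin n))))
  let Φ : (Fin n → Fin k) → (A → Fin k) × (Fin n → Fin k) := fun ψ => (fun a => ψ a, ov ψ)
  have hΦ : Function.Injective Φ := by
    intro ψ ψ' h
    simp only [Φ, Prod.mk.injEq] at h
    funext v
    by_cases hv : v ∈ A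
    · exact congrFun h.1 ⟨v, hv⟩
    · have := congrFun h.2 v
      simpa [ov, hv] using this
  have h1 : (Finset.univ : Finset (Fin n → Fin k)).card ≤
      ((Finset.univ : Finset (A → Fin k)) ×ˢ G).card := by
    apply Finset.card_le_card_of_injOn Φ
    · intro ψ _
      simp [Φ, G, hov]
    · exact hΦ.injOn
  rw [Finset.card_product] at h1
  simpa [hA] using h1

/-- Rainbow reduction: from set systems to families of tuples. -/
lemma rainbow {n k : ℕ} (hk : 1 ≤ k) (L : Finset ℕ) (F : Finset (Finset (Fin n)))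
    (h1 : ∀ A ∈ F, A.card = k) (h2 : ∀ A ∈ F, ∀ B ∈ F, A ≠ B → (A ∩ B).card ∈ L) :
    ∃ G : Finset (Fin k → Fin n), F.card ≤ k ^ k * G.card ∧
      ∀ x ∈ G, ∀ y ∈ G, x ≠ y → (agr x y).card ∈ L := by
  classical
  have : NeZero k := ⟨by omega⟩
  let Fχ : (Fin n → Fin k) → Finset (Finset (Fin n)) :=
    fun χ => F.filter (fun A => Set.InjOn χ (A : Set (Fin n)))
  obtain ⟨χ, hχ⟩ : ∃ χ, F.card ≤ k ^ k * (Fχ χ).card := by
    have hsum : ∑ χ : Fin n → Fin k, F.card ≤ ∑ χ : Fin n → Fin k, k ^ k * (Fχ χ).card := by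
      have e1 : ∑ χ : Fin n → Fin k, (Fχ χ).card =
          ∑ A ∈ F, ((Finset.univ : Finset (Fin n → Fin k)).filter
            (fun χ => Set.InjOn χ (A : Set (Fin n)))).card := by
        simp only [Fχ, Finset.card_filter]
        rw [Finset.sum_comm]
      rw [← Finset.mul_sum, e1, Finset.mul_sum]
      calc ∑ χ : Fin n → Fin k, F.card = ∑ A ∈ F, k ^ n := by simp [mul_comm]
        _ ≤ _ := Finset.sum_le_sum (fun A hA => good_colourings A (h1 A hA))
    obtain ⟨χ, -, h⟩ := Finset.exists_le_of_sum_le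
      (⟨fun _ => 0, Finset.mem_univ _⟩ : (Finset.univ : Finset (Fin n → Fin k)).Nonempty) hsum
    exact ⟨χ, h⟩
  have hsurj : ∀ A ∈ Fχ χ, ∀ i : Fin k, ∃ v ∈ A, χ v = i := by
    intro A hA i
    rw [Finset.mem_filter] at hA
    have himg : (A.image χ) = Finset.univ := by
      apply Finset.eq_univ_of_card
      rw [Finset.card_image_of_injOn hA.2, h1 A hA.1]
      simp
    have : i ∈ A.image χ := by rw [himg]; exact Finset.mem_univ _
    obtain ⟨v, hv, hv'⟩ := Finset.mem_image.1 this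
    exact ⟨v, hv, hv'⟩
  by_cases hn : n = 0
  · -- no sets
    subst hn
    have hF : F = ∅ := by
      rw [Finset.eq_empty_iff_forall_notMem]
      intro A hA
      have := h1 A hA
      have h0 : A.card = 0 := by
        rw [Finset.card_eq_zero]
        ext v
        exact v.elim0
      omega
    exact ⟨∅, by simp [hF], by simp⟩
  have : NeZero n := ⟨hn⟩
  let tup : Finset (Fin n) → (Fin k → Fin n) := fun A i =>
    if h : ∃ v ∈ A, χ v = i then h.choose else 0
  have htup : ∀ A ∈ Fχ χ, ∀ i, tup A i ∈ A ∧ χ (tup A i) = i := by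
    intro A hA i
    have h := hsurj A hA i
    simp only [tup, h, dif_pos]
    exact h.choose_spec
  have htup' : ∀ A ∈ Fχ χ, ∀ v ∈ A, tup A (χ v) = v := by
    intro A hA v hv
    have h := htup A hA (χ v)
    exact (Finset.mem_filter.1 hA).2 h.1 hv h.2
  have hinj : Set.InjOn tup (Fχ χ : Set (Finset (Fin n))) := by
    intro A hA B hB hAB
    have hA' : A ∈ Fχ χ := hA
    have hB' : B ∈ Fχ χ := hB
    ext v
    constructor
    · intro hv
      rw [← htup' A hA' v hv, hAB]
      exact (htup B hB' _).1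
    · intro hv
      rw [← htup' B hB' v hv, ← hAB]
      exact (htup A hA' _).1
  refine ⟨(Fχ χ).image tup, ?_, ?_⟩
  · rw [Finset.card_image_of_injOn hinj]
    exact hχ
  · intro x hx y hy hxy
    obtain ⟨A, hA, rfl⟩ := Finset.mem_image.1 hx
    obtain ⟨B, hB, rfl⟩ := Finset.mem_image.1 hy
    have hAB : A ≠ B := fun h => hxy (by rw [h])
    have hc : (agr (tup A) (tup B)).card = (A ∩ B).card := by
      apply Finset.card_bij (fun i _ => tup A i)
      · intro i hi
        rw [mem_agr] at hi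
        rw [Finset.mem_inter]
        refine ⟨(htup A hA i).1, ?_⟩
        rw [hi]
        exact (htup B hB i).1
      · intro i _ j _ hij
        rw [← (htup A hA i).2, hij, (htup A hA j).2]
      · intro v hv
        rw [Finset.mem_inter] at hv
        refine ⟨χ v, ?_, htup' A hA v hv.1⟩
        rw [mem_agr, htup' A hA v hv.1, htup' B hB v hv.2]
    rw [hc]
    exact h2 A (Finset.mem_filter.1 hA).1 B (Finset.mem_filter.1 hB).1 hAB

/-- A valid closure system. -/
def Valid (k : ℕ) (L : Finset ℕ) (I : Finset (Finset (Fin k))) : Prop :=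
  (∀ A ∈ I, ∀ B ∈ I, A ∩ B ∈ I) ∧ (∀ A ∈ I, A ≠ Finset.univ) ∧ (∀ A ∈ I, A.card ∈ L)

/-- The constant in the upper bound. -/
def CC (k : ℕ) : ℕ := k ^ k * k ^ (Fintype.card (Finset (Fin k) × Fin k))

lemma mm_le {n k : ℕ} (hk : 1 ≤ k) (L : Finset ℕ) :
    mm n k L = 0 ∨ ∃ I, Valid k L I ∧ mm n k L ≤ CC k * fmax k I n := by
  classical
  obtain ⟨F, hF, h1, h2⟩ := exists_mm n k L
  obtain ⟨G, hG, hG2⟩ := rainbow hk L F h1 h2
  rcases Finset.eq_empty_or_nonempty G with hGe | hGe
  · left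
    rw [hGe] at hG
    simp at hG
    rw [← hF, hG]
    simp
  · right
    obtain ⟨G', hG'G, I, i1, i2, i3, i4, i5⟩ := clean hk L (Fintype.card (Finset (Fin k) × Fin k)) G
      (Finset.card_le_univ _) hGe hG2
    refine ⟨I, ⟨i1, i2, i3⟩, ?_⟩
    have i4' : Fam I G' := i4
    have := le_fmax i4'
    rw [← hF]
    unfold CC
    calc F.card ≤ k ^ k * G.card := hG
      _ ≤ k ^ k * (k ^ (Fintype.card (Finset (Fin k) × Fin k)) * G'.card) :=
          Nat.mul_le_mul_left _ i5
      _ ≤ k ^ k * (k ^ (Fintype.card (Finset (Fin k) × Fin k)) * fmax k I n) :=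
          Nat.mul_le_mul_left _ (Nat.mul_le_mul_left _ this)
      _ = _ := by ring

end Pool.Agent.helper38.LSys
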