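import Mathlib
import Pool.Agent.helper38.LSys2

set_option autoImplicit false

namespace Pool.Agent.helper38.LSys

open Finset Filter Topology

/-- The set of all exponents realised by finite configurations. -/
def expSet (k : ℕ) (L : Finset ℕ) : Set ℝ :=
  {a : ℝ | ∃ n : ℕ, 2 ≤ n ∧ ∃ I, Valid k L I ∧ a = Real.log (fmax k I n) / Real.log n}

lemma expSet_bdd (k : ℕ) (L : Finset ℕ) : ∀ a ∈ expSet k L, a ≤ k := by
  rintro a ⟨n, hn, I, -, rfl⟩
  have hn1 : (1 : ℝ) < n := by exact_mod_cast hn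
  have hlog : 0 < Real.log n := Real.log_pos hn1
  rw [div_le_iff₀ hlog]
  rcases Nat.eq_zero_or_pos (fmax k I n) with h | h
  · rw [h]
    simp only [Nat.cast_zero, Real.log_zero]
    positivity
  · have h1 : (fmax k I n : ℝ) ≤ (n : ℝ) ^ k := by exact_mod_cast fmax_le k I n
    calc Real.log (fmax k I n) ≤ Real.log ((n : ℝ) ^ k) :=
          Real.log_le_log (by exact_mod_cast h) h1
      _ = k * Real.log n := by rw [Real.log_pow]

/-- The one-set closure system gives exponent one. -/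
lemma one_set {k l : ℕ} (hl : l < k) {L : Finset ℕ} (hlL : l ∈ L) :
    ∃ I, Valid k L I ∧ ∀ n, n ≤ fmax k I n := by
  classical
  obtain ⟨A, -, hA⟩ := Finset.exists_subset_card_eq (s := (Finset.univ : Finset (Fin k)))
    (n := l) (by simpa using hl.le)
  have hAu : A ≠ Finset.univ := by
    intro h
    rw [h] at hA
    simp at hA
    omega
  refine ⟨{A}, ⟨?_, ?_, ?_⟩, ?_⟩
  · intro B hB C hC
    rw [Finset.mem_singleton] at *
    rw [hB, hC, Finset.inter_self]
  · intro B hB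
    rw [Finset.mem_singleton] at hB
    rw [hB]
    exact hAu
  · intro B hB
    rw [Finset.mem_singleton] at hB
    rw [hB, hA]
    exact hlL
  · intro n
    rcases Nat.eq_zero_or_pos n with h | h
    · rw [h]
      exact Nat.zero_le _
    have : NeZero n := ⟨by omega⟩
    obtain ⟨j, hj⟩ : ∃ j, j ∉ A := by
      by_contra h
      push Not at h
      exact hAu (Finset.eq_univ_iff_forall.2 h)
    let φ : Fin n → (Fin k → Fin n) := fun v i => if i ∈ A then 0 else v
    have hφ : Function.Injective φ := by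
      intro v w h
      have := congrFun h j
      simpa [φ, hj] using this
    have hF : Fam ({A} : Finset (Finset (Fin k))) ((Finset.univ : Finset (Fin n)).image φ) := by
      intro x hx y hy hxy
      obtain ⟨v, -, rfl⟩ := Finset.mem_image.1 hx
      obtain ⟨w, -, rfl⟩ := Finset.mem_image.1 hy
      have hvw : v ≠ w := fun h => hxy (by rw [h])
      rw [Finset.mem_singleton]
      ext i
      rw [mem_agr]
      by_cases hi : i ∈ A
      · simp [φ, hi]
      · simp [φ, hi, hvw]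
    have := le_fmax hF
    rw [Finset.card_image_of_injective _ hφ] at this
    simpa using this

lemma fmax_le_rpow {k : ℕ} {L : Finset ℕ} {I : Finset (Finset (Fin k))} (hI : Valid k L I)
    {n : ℕ} (hn : 2 ≤ n) : (fmax k I n : ℝ) ≤ (n : ℝ) ^ (sSup (expSet k L)) := by
  have hn1 : (1 : ℝ) < n := by exact_mod_cast hn
  have hlog : 0 < Real.log n := Real.log_pos hn1
  rcases Nat.eq_zero_or_pos (fmax k I n) with h | h
  · rw [h]
    simp only [Nat.cast_zero]
    positivity
  · have h1 : Real.log (fmax k I n) / Real.log n ≤ sSup (expSet k L) :=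
      le_csSup ⟨k, expSet_bdd k L⟩ ⟨n, hn, I, hI, rfl⟩
    rw [div_le_iff₀ hlog] at h1
    have h2 : (0 : ℝ) < fmax k I n := by exact_mod_cast h
    rw [← Real.exp_log h2, Real.rpow_def_of_pos (by linarith), mul_comm]
    exact Real.exp_le_exp.2 h1

lemma lower {k : ℕ} (hk : 1 ≤ k) {L : Finset ℕ} (hne : (expSet k L).Nonempty) {β : ℝ}
    (hβ0 : 0 ≤ β) (hβ : β < sSup (expSet k L)) :
    ∃ c : ℝ, 0 < c ∧ ∀ n : ℕ, k ≤ n → c * (n : ℝ) ^ β ≤ mm n k L := by
  obtain ⟨a, ⟨n₀, hn₀, I, hI, rfl⟩, ha⟩ := exists_lt_of_lt_csSup hne hβ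
  have hn1 : (1 : ℝ) < n₀ := by exact_mod_cast hn₀
  have hlog : 0 < Real.log n₀ := Real.log_pos hn1
  rw [lt_div_iff₀ hlog] at ha
  have hf0 : 0 < fmax k I n₀ := by
    rcases Nat.eq_zero_or_pos (fmax k I n₀) with h | h
    · rw [h] at ha
      simp only [Nat.cast_zero, Real.log_zero] at ha
      exact absurd ha (not_lt.2 (by positivity))
    · exact h
  have hf0' : (0 : ℝ) < fmax k I n₀ := by exact_mod_cast hf0
  have hf : (n₀ : ℝ) ^ β ≤ fmax k I n₀ := by
    rw [← Real.exp_log hf0', Real.rpow_def_of_pos (by linarith), mul_comm]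
    exact Real.exp_le_exp.2 ha.le
  have hk0 : (0 : ℝ) < k := by exact_mod_cast hk
  refine ⟨(((k : ℝ) * n₀) ^ β)⁻¹, by positivity, ?_⟩
  intro n hn
  have hq : n / k ≠ 0 := by
    have : 1 ≤ n / k := (Nat.one_le_div_iff (by omega)).2 hn
    omega
  let j := Nat.log n₀ (n / k)
  have hj1 : n₀ ^ j ≤ n / k := Nat.pow_log_le_self n₀ hq
  have hj2 : n / k < n₀ ^ (j + 1) := Nat.lt_pow_succ_log_self (by omega) _
  have h1 : k * n₀ ^ j ≤ n :=
    (Nat.mul_le_mul_left k hj1).trans (Nat.mul_div_le n k)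
  have h2 : fmax k I n₀ ^ j ≤ mm n k L :=
    ((fmax_pow hI.1 n₀ j).trans (fmax_le_mm hI.2.2 _)).trans (mm_mono h1)
  have h3 : n ≤ k * n₀ * n₀ ^ j := by
    have : n < k * n₀ ^ (j + 1) := by
      have := (Nat.div_lt_iff_lt_mul (by omega : 0 < k)).1 hj2
      rwa [mul_comm] at this
    calc n ≤ k * n₀ ^ (j + 1) := this.le
      _ = k * n₀ * n₀ ^ j := by ring
  have h3' : (n : ℝ) ≤ (k : ℝ) * n₀ * (n₀ : ℝ) ^ j := by exact_mod_cast h3
  have h4 : (n : ℝ) ^ β ≤ ((k : ℝ) * n₀) ^ β * ((n₀ : ℝ) ^ j) ^ β := by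
    rw [← Real.mul_rpow (by positivity) (by positivity)]
    exact Real.rpow_le_rpow (by positivity) h3' hβ0
  have h5 : ((n₀ : ℝ) ^ j) ^ β = ((n₀ : ℝ) ^ β) ^ j := by
    rw [← Real.rpow_natCast, ← Real.rpow_natCast, ← Real.rpow_mul (by positivity),
      ← Real.rpow_mul (by positivity), mul_comm]
  have h6 : ((n₀ : ℝ) ^ β) ^ j ≤ (fmax k I n₀ : ℝ) ^ j :=
    pow_le_pow_left₀ (by positivity) hf j
  have h7 : (fmax k I n₀ : ℝ) ^ j ≤ mm n k L := by exact_mod_cast h2
  rw [inv_mul_le_iff₀ (by positivity)]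
  calc (n : ℝ) ^ β ≤ ((k : ℝ) * n₀) ^ β * ((n₀ : ℝ) ^ j) ^ β := h4
    _ ≤ ((k : ℝ) * n₀) ^ β * (mm n k L : ℝ) := by
        apply mul_le_mul_of_nonneg_left _ (by positivity)
        rw [h5]
        exact h6.trans h7

lemma upper {k : ℕ} (hk : 1 ≤ k) (L : Finset ℕ) {n : ℕ} (hn : 2 ≤ n) :
    (mm n k L : ℝ) ≤ (CC k : ℝ) * (n : ℝ) ^ (sSup (expSet k L)) := by
  rcases mm_le (n := n) hk L with h | ⟨I, hI, h⟩
  · rw [h]
    simp only [Nat.cast_zero]
    positivity
  · calc (mm n k L : ℝ) ≤ (CC k : ℝ) * (fmax k I n : ℝ) := by exact_mod_cast h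
      _ ≤ _ := mul_le_mul_of_nonneg_left (fmax_le_rpow hI hn) (by positivity)

theorem limit_exponent (k : ℕ) (L : Finset ℕ) (hL : L.Nonempty) (hLk : L ⊆ Finset.range k) :
    ∃ α : ℝ, 1 ≤ α ∧
      Asymptotics.IsBigO Filter.atTop (fun n : ℕ => (mm n k L : ℝ)) (fun n : ℕ => (n : ℝ) ^ α) ∧
      (∀ β : ℝ, β < α → Asymptotics.IsBigO Filter.atTop (fun n : ℕ => (n : ℝ) ^ β)
        (fun n : ℕ => (mm n k L : ℝ))) ∧
      Filter.Tendsto (fun n : ℕ => Real.log (mm n k L : ℝ) / Real.log (n : ℝ))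
        Filter.atTop (nhds α) := by
  obtain ⟨l, hl⟩ := hL
  have hlk : l < k := Finset.mem_range.1 (hLk hl)
  have hk : 1 ≤ k := by omega
  obtain ⟨I, hI, hIn⟩ := one_set hlk hl
  have h1S : (1 : ℝ) ≤ sSup (expSet k L) := by
    have hmem : Real.log (fmax k I 2) / Real.log (2 : ℕ) ∈ expSet k L := ⟨2, le_rfl, I, hI, rfl⟩
    have h2 : (1 : ℝ) ≤ Real.log (fmax k I 2) / Real.log (2 : ℕ) := by
      have hlog : 0 < Real.log ((2 : ℕ) : ℝ) := Real.log_pos (by norm_num)
      rw [le_div_iff₀ hlog, one_mul]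
      apply Real.log_le_log (by norm_num)
      exact_mod_cast hIn 2
    exact h2.trans (le_csSup ⟨k, expSet_bdd k L⟩ hmem)
  have hne : (expSet k L).Nonempty := ⟨_, 2, le_rfl, I, hI, rfl⟩
  set α := sSup (expSet k L) with hα
  have hlow : ∀ β : ℝ, β < α → ∃ c : ℝ, 0 < c ∧ ∀ᶠ n : ℕ in atTop, c * (n : ℝ) ^ β ≤ mm n k L := by
    intro β hβ
    obtain ⟨c, hc, h⟩ := lower (β := max β 0) hk hne (le_max_right _ _)
      (max_lt hβ (by linarith))
    refine ⟨c, hc, ?_⟩
    filter_upwards [Filter.eventually_ge_atTop k] with n hn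
    have hn1 : (1 : ℝ) ≤ n := by exact_mod_cast (hk.trans hn)
    refine le_trans ?_ (h n hn)
    exact mul_le_mul_of_nonneg_left (Real.rpow_le_rpow_of_exponent_le hn1 (le_max_left _ _)) hc.le
  refine ⟨α, h1S, ?_, ?_, ?_⟩
  · apply Asymptotics.IsBigO.of_bound (CC k : ℝ)
    filter_upwards [Filter.eventually_ge_atTop 2] with n hn
    rw [Real.norm_of_nonneg (by positivity), Real.norm_of_nonneg (by positivity)]
    exact upper hk L hn
  · intro β hβ
    obtain ⟨c, hc, h⟩ := hlow β hβ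
    apply Asymptotics.IsBigO.of_bound (c⁻¹)
    filter_upwards [h] with n hn
    rw [Real.norm_of_nonneg (by positivity), Real.norm_of_nonneg (by positivity)]
    rw [← div_eq_inv_mul, le_div_iff₀ hc, mul_comm]
    exact hn
  · have hlogtop : Tendsto (fun n : ℕ => Real.log (n : ℝ)) atTop atTop :=
      Real.tendsto_log_atTop.comp tendsto_natCast_atTop_atTop
    rw [tendsto_order]
    constructor
    · intro a ha
      obtain ⟨β, haβ, hβα⟩ := exists_between ha
      obtain ⟨c, hc, h⟩ := hlow β hβα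
      have hz : Tendsto (fun n : ℕ => Real.log c / Real.log (n : ℝ)) atTop (nhds 0) :=
        Tendsto.div_atTop tendsto_const_nhds hlogtop
      have hz' : ∀ᶠ n : ℕ in atTop, a - β < Real.log c / Real.log (n : ℝ) :=
        (tendsto_order.1 hz).1 _ (by linarith)
      filter_upwards [h, hz', Filter.eventually_ge_atTop 2] with n hn hzn hn2
      have hn1 : (1 : ℝ) < n := by exact_mod_cast hn2
      have hlog : 0 < Real.log n := Real.log_pos hn1
      have hpos : (0 : ℝ) < c * (n : ℝ) ^ β := by positivity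
      have h1 : Real.log (c * (n : ℝ) ^ β) ≤ Real.log (mm n k L) := Real.log_le_log hpos hn
      rw [Real.log_mul hc.ne' (by positivity), Real.log_rpow (by linarith)] at h1
      rw [lt_div_iff₀ hlog] at hzn ⊢
      linarith
    · intro a ha
      have hC : (0 : ℝ) < CC k := by
        unfold CC
        have : 0 < k := hk
        positivity
      have hz : Tendsto (fun n : ℕ => Real.log (CC k : ℝ) / Real.log (n : ℝ)) atTop (nhds 0) :=
        Tendsto.div_atTop tendsto_const_nhds hlogtop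
      have hz' : ∀ᶠ n : ℕ in atTop, Real.log (CC k : ℝ) / Real.log (n : ℝ) < a - α :=
        (tendsto_order.1 hz).2 _ (by linarith)
      obtain ⟨c, hc, h⟩ := hlow 0 (by linarith)
      filter_upwards [h, hz', Filter.eventually_ge_atTop 2] with n hn hzn hn2
      have hn1 : (1 : ℝ) < n := by exact_mod_cast hn2
      have hlog : 0 < Real.log n := Real.log_pos hn1
      have hmpos : (0 : ℝ) < mm n k L := by
        refine lt_of_lt_of_le ?_ hn
        positivity
      have h1 : Real.log (mm n k L) ≤ Real.log ((CC k : ℝ) * (n : ℝ) ^ α) :=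
        Real.log_le_log hmpos (upper hk L hn2)
      rw [Real.log_mul hC.ne' (by positivity), Real.log_rpow (by linarith)] at h1
      rw [div_lt_iff₀ hlog] at hzn ⊢
      linarith

end Pool.Agent.helper38.LSys
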