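import Mathlib

set_option autoImplicit false

namespace Pool.Agent.helper38.EGT

open Finset

lemma pow_self_le (m : ℕ) : m ^ m ≤ 3 ^ m * m.factorial := by
  have h1 : (m : ℝ) ^ m / m.factorial ≤ Real.exp m :=
    Real.pow_div_factorial_le_exp (m : ℝ) (by positivity) m
  have h2 : Real.exp m ≤ 3 ^ m := by
    have : Real.exp 1 ≤ 3 := by
      have := Real.exp_one_lt_d9
      linarith
    calc Real.exp m = Real.exp 1 ^ m := by rw [← Real.exp_nat_mul, mul_one]
      _ ≤ 3 ^ m := pow_le_pow_left₀ (Real.exp_pos _).le this m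
  have h3 : (0 : ℝ) < m.factorial := by exact_mod_cast Nat.factorial_pos m
  have h4 : (m : ℝ) ^ m ≤ 3 ^ m * m.factorial := by
    rw [div_le_iff₀ h3] at h1
    exact h1.trans (mul_le_mul_of_nonneg_right h2 h3.le)
  exact_mod_cast h4

lemma choose_bound (M e s : ℕ) (h : 1296 * (e * s) ≤ M) :
    M.choose (3 * e * s) * (3 * e * s) ^ (4 * e * s) * 2 ^ (4 * e * s) ≤ M ^ (4 * e * s) := by
  obtain ⟨m, hm⟩ : ∃ m, m = 3 * e * s := ⟨_, rfl⟩
  rw [← hm]
  have h1 : M.choose m * m.factorial ≤ M ^ m := by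
    rw [mul_comm, ← Nat.descFactorial_eq_factorial_mul_choose]
    exact Nat.descFactorial_le_pow M m
  have h2 : M.choose m * m ^ m ≤ 3 ^ m * M ^ m := by
    calc M.choose m * m ^ m ≤ M.choose m * (3 ^ m * m.factorial) :=
          Nat.mul_le_mul_left _ (pow_self_le m)
      _ = 3 ^ m * (M.choose m * m.factorial) := by ring
      _ ≤ 3 ^ m * M ^ m := Nat.mul_le_mul_left _ h1
  have e1 : 4 * e * s = m + e * s := by rw [hm]; ring
  have e2 : 2 ^ (4 * e * s) = 16 ^ (e * s) := by
    rw [show 4 * e * s = 4 * (e * s) by ring, pow_mul]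
    norm_num
  have e3 : 3 ^ m = 27 ^ (e * s) := by
    rw [hm, show 3 * e * s = 3 * (e * s) by ring, pow_mul]
    norm_num
  calc M.choose m * m ^ (4 * e * s) * 2 ^ (4 * e * s)
      = (M.choose m * m ^ m) * (m ^ (e * s) * 16 ^ (e * s)) := by
        rw [e2, e1, pow_add]; ring
    _ ≤ (3 ^ m * M ^ m) * (m ^ (e * s) * 16 ^ (e * s)) := Nat.mul_le_mul_right _ h2
    _ = M ^ m * (1296 * (e * s)) ^ (e * s) := by
        have : 1296 * (e * s) = 27 * m * 16 := by rw [hm]; ring
        rw [e3, this, mul_pow, mul_pow]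
        ring
    _ ≤ M ^ m * M ^ (e * s) := Nat.mul_le_mul_left _ (Nat.pow_le_pow_left h _)
    _ = M ^ (4 * e * s) := by rw [e1, pow_add]

lemma exp_half_lt_two : Real.exp (1 / 2) < 2 := by
  have h1 := Real.exp_one_lt_d9
  have h2 : Real.exp (1 / 2) * Real.exp (1 / 2) = Real.exp 1 := by
    rw [← Real.exp_add]; norm_num
  have h3 := Real.exp_pos (1 / 2)
  nlinarith

/-- Existence of expanders, by counting. -/
theorem exists_expander (X : Type) [Fintype X] [DecidableEq X] (e K M : ℕ) (he : 1 ≤ e)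
    (hM : 1296 * (e * K) ≤ M) (hX : Fintype.card X ≤ 2 ^ (4 * e - 1)) (hM0 : 0 < M) :
    ∃ γ : X → Fin (4 * e) → Fin M, ∀ S : Finset X, S.card ≤ K →
      3 * e * S.card ≤ (S.biUnion (fun x => univ.image (γ x))).card := by
  classical
  by_contra hcon
  push Not at hcon
  let B : Finset X → Finset (Fin M) → Finset (X → Fin (4 * e) → Fin M) := fun S Y =>
    Fintype.piFinset (fun x => if x ∈ S then Fintype.piFinset (fun _ => Y) else univ)
  let I : Finset (Finset X) := univ.filter (fun S => S.Nonempty ∧ S.card ≤ K)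
  have hcov : (univ : Finset (X → Fin (4 * e) → Fin M)) ⊆
      I.biUnion (fun S => (powersetCard (3 * e * S.card) (univ : Finset (Fin M))).biUnion (B S)) := by
    intro γ _
    obtain ⟨S, hSK, hS⟩ := hcon γ
    have hSne : S.Nonempty := by
      rw [Finset.nonempty_iff_ne_empty]
      rintro rfl
      simp at hS
    have hle : 3 * e * S.card ≤ (univ : Finset (Fin M)).card := by
      rw [Finset.card_univ, Fintype.card_fin]
      calc 3 * e * S.card ≤ 3 * e * K := Nat.mul_le_mul_left _ hSK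
        _ ≤ 1296 * (e * K) := by nlinarith
        _ ≤ M := hM
    obtain ⟨Y, hY1, -, hY3⟩ := Finset.exists_subsuperset_card_eq
      (Finset.subset_univ (S.biUnion (fun x => univ.image (γ x)))) hS.le hle
    simp only [Finset.mem_biUnion, I, Finset.mem_filter, Finset.mem_univ, true_and]
    refine ⟨S, ⟨hSne, hSK⟩, Y, ?_, ?_⟩
    · rw [Finset.mem_powersetCard]
      exact ⟨Finset.subset_univ _, hY3⟩
    · simp only [B, Fintype.mem_piFinset]
      intro x
      by_cases hx : x ∈ S
      · simp only [hx, if_true, Fintype.mem_piFinset]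
        intro j
        apply hY1
        rw [Finset.mem_biUnion]
        exact ⟨x, hx, Finset.mem_image_of_mem _ (Finset.mem_univ _)⟩
      · simp [hx]
  have hB : ∀ S Y, (B S Y).card = (Y.card ^ (4 * e)) ^ S.card *
      (M ^ (4 * e)) ^ (Fintype.card X - S.card) := by
    intro S Y
    simp only [B, Fintype.card_piFinset]
    have : ∀ x : X, (if x ∈ S then Fintype.piFinset (fun _ : Fin (4 * e) => Y) else univ).card =
        if x ∈ S then Y.card ^ (4 * e) else M ^ (4 * e) := by
      intro x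
      split_ifs
      · simp
      · simp
    rw [Finset.prod_congr rfl (fun x _ => this x), Finset.prod_ite]
    simp only [Finset.prod_const]
    congr 2
    · congr 1
      ext x
      simp
    · rw [← Finset.card_compl]
      congr 1
      ext x
      simp
  -- the bound for each S
  have hS : ∀ S ∈ I, ((∑ Y ∈ powersetCard (3 * e * S.card) (univ : Finset (Fin M)),
      (B S Y).card : ℕ) : ℝ) ≤ ((M : ℝ) ^ (4 * e)) ^ Fintype.card X * ((1 / 2) ^ (4 * e)) ^ S.card := by
    intro S hSI
    simp only [I, Finset.mem_filter, Finset.mem_univ, true_and] at hSI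
    have hScard : S.card ≤ Fintype.card X := Finset.card_le_univ S
    have h1 : ∑ Y ∈ powersetCard (3 * e * S.card) (univ : Finset (Fin M)), (B S Y).card =
        M.choose (3 * e * S.card) * (3 * e * S.card) ^ (4 * e * S.card) *
          (M ^ (4 * e)) ^ (Fintype.card X - S.card) := by
      rw [Finset.sum_congr rfl (fun Y hY => by
        rw [hB S Y, (Finset.mem_powersetCard.1 hY).2])]
      rw [Finset.sum_const, Finset.card_powersetCard, Finset.card_univ, Fintype.card_fin,
        smul_eq_mul, ← pow_mul (3 * e * S.card) (4 * e) S.card]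
      ring
    rw [h1]
    have h2 := choose_bound M e S.card (le_trans (by
      apply Nat.mul_le_mul_left; exact Nat.mul_le_mul_left _ hSI.2) hM)
    have h3 : ((M.choose (3 * e * S.card) * (3 * e * S.card) ^ (4 * e * S.card) : ℕ) : ℝ) ≤
        ((M : ℝ) ^ (4 * e)) ^ S.card * ((1 / 2) ^ (4 * e)) ^ S.card := by
      have h4 : ((M.choose (3 * e * S.card) * (3 * e * S.card) ^ (4 * e * S.card) : ℕ) : ℝ) *
          2 ^ (4 * e * S.card) ≤ (M : ℝ) ^ (4 * e * S.card) := by exact_mod_cast h2
      rw [← pow_mul, ← pow_mul, one_div, inv_pow, ← div_eq_mul_inv, le_div_iff₀ (by positivity)]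
      exact h4
    push_cast at h3 ⊢
    calc (M.choose (3 * e * S.card) : ℝ) * (3 * e * S.card) ^ (4 * e * S.card) *
          ((M : ℝ) ^ (4 * e)) ^ (Fintype.card X - S.card)
        ≤ (((M : ℝ) ^ (4 * e)) ^ S.card * ((1 / 2) ^ (4 * e)) ^ S.card) *
          ((M : ℝ) ^ (4 * e)) ^ (Fintype.card X - S.card) :=
          mul_le_mul_of_nonneg_right h3 (by positivity)
      _ = (((M : ℝ) ^ (4 * e)) ^ S.card * ((M : ℝ) ^ (4 * e)) ^ (Fintype.card X - S.card)) *
          ((1 / 2) ^ (4 * e)) ^ S.card := by ring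
      _ = ((M : ℝ) ^ (4 * e)) ^ Fintype.card X * ((1 / 2) ^ (4 * e)) ^ S.card := by
          rw [← pow_add, Nat.add_sub_cancel' hScard]
  have htot : (((M : ℝ) ^ (4 * e)) ^ Fintype.card X) ≤
      ∑ S ∈ I, ((M : ℝ) ^ (4 * e)) ^ Fintype.card X * ((1 / 2) ^ (4 * e)) ^ S.card := by
    have h1 := Finset.card_le_card hcov
    have h2 : (I.biUnion (fun S => (powersetCard (3 * e * S.card)
        (univ : Finset (Fin M))).biUnion (B S))).card ≤
        ∑ S ∈ I, ∑ Y ∈ powersetCard (3 * e * S.card) (univ : Finset (Fin M)), (B S Y).card :=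
      Finset.card_biUnion_le.trans (Finset.sum_le_sum (fun S _ => Finset.card_biUnion_le))
    have h3 : (univ : Finset (X → Fin (4 * e) → Fin M)).card = (M ^ (4 * e)) ^ Fintype.card X := by
      simp
    rw [h3] at h1
    have h4 : (((M ^ (4 * e)) ^ Fintype.card X : ℕ) : ℝ) ≤
        ((∑ S ∈ I, ∑ Y ∈ powersetCard (3 * e * S.card) (univ : Finset (Fin M)),
          (B S Y).card : ℕ) : ℝ) := by exact_mod_cast h1.trans h2
    push_cast at h4
    refine h4.trans (Finset.sum_le_sum (fun S hSI => ?_))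
    have := hS S hSI
    push_cast at this
    exact this
  rw [← Finset.mul_sum] at htot
  have hMpos : (0 : ℝ) < ((M : ℝ) ^ (4 * e)) ^ Fintype.card X := by
    have : (0 : ℝ) < M := by exact_mod_cast hM0
    positivity
  have h5 : (1 : ℝ) ≤ ∑ S ∈ I, (((1 : ℝ) / 2) ^ (4 * e)) ^ S.card := by
    by_contra h
    push Not at h
    have := mul_lt_mul_of_pos_left h hMpos
    linarith
  -- sum over all nonempty sets
  have h6 : ∑ S ∈ I, (((1 : ℝ) / 2) ^ (4 * e)) ^ S.card + 1 ≤
      (((1 : ℝ) / 2) ^ (4 * e) + 1) ^ Fintype.card X := by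
    have h7 : (((1 : ℝ) / 2) ^ (4 * e) + 1) ^ Fintype.card X =
        ∑ S : Finset X, (((1 : ℝ) / 2) ^ (4 * e)) ^ S.card := by
      have := Finset.sum_pow_mul_eq_add_pow (((1 : ℝ) / 2) ^ (4 * e)) 1 (univ : Finset X)
      rw [Finset.card_univ] at this
      rw [← this]
      simp
    rw [h7]
    have h8 : (∅ : Finset X) ∉ I := by simp [I]
    have h9 : ∑ S ∈ insert ∅ I, (((1 : ℝ) / 2) ^ (4 * e)) ^ S.card =
        1 + ∑ S ∈ I, (((1 : ℝ) / 2) ^ (4 * e)) ^ S.card := by
      rw [Finset.sum_insert h8]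
      simp
    rw [add_comm, ← h9]
    exact Finset.sum_le_sum_of_subset_of_nonneg (Finset.subset_univ _) (fun _ _ _ => by positivity)
  have h10 : (((1 : ℝ) / 2) ^ (4 * e) + 1) ^ Fintype.card X < 2 := by
    calc (((1 : ℝ) / 2) ^ (4 * e) + 1) ^ Fintype.card X
        ≤ (Real.exp (((1 : ℝ) / 2) ^ (4 * e))) ^ Fintype.card X :=
          pow_le_pow_left₀ (by positivity) (Real.add_one_le_exp _) _
      _ = Real.exp (Fintype.card X * ((1 : ℝ) / 2) ^ (4 * e)) := by rw [← Real.exp_nat_mul]
      _ ≤ Real.exp (1 / 2) := by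
          apply Real.exp_le_exp.2
          have h11 : (Fintype.card X : ℝ) ≤ 2 ^ (4 * e - 1) := by exact_mod_cast hX
          calc (Fintype.card X : ℝ) * ((1 : ℝ) / 2) ^ (4 * e)
              ≤ 2 ^ (4 * e - 1) * ((1 : ℝ) / 2) ^ (4 * e) :=
                mul_le_mul_of_nonneg_right h11 (by positivity)
            _ = 1 / 2 := by
                obtain ⟨f, hf⟩ : ∃ f, 4 * e = f + 1 := ⟨4 * e - 1, by omega⟩
                rw [hf, Nat.add_sub_cancel, one_div, inv_pow, pow_succ]
                field_simp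
      _ < 2 := exp_half_lt_two
  linarith

end Pool.Agent.helper38.EGT
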