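import Mathlib
import Pool.Agent.helper38.EGT1

set_option autoImplicit false

namespace Pool.Agent.helper38.EGT

open Finset

/-- Matching lemma: all but few elements can be matched outside of a small blocked set. -/
lemma matching {X C : Type} [DecidableEq X] [DecidableEq C] [Nonempty C] (e : ℕ) (he : 1 ≤ e)
    (Γ : X → Finset C) (R : Finset X) (hΓ : ∀ x ∈ R, (Γ x).card ≤ 4 * e)
    (hexp : ∀ S ⊆ R, 3 * e * S.card ≤ (S.biUnion Γ).card) (Z : Finset C) :
    ∃ R' ⊆ R, R'.card * e ≤ Z.card ∧ ∃ μ : X → C, Set.InjOn μ ((R \ R' : Finset X) : Set X) ∧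
      ∀ x ∈ R \ R', μ x ∈ Γ x ∧ μ x ∉ Z := by
  classical
  let R' := R.filter (fun x => 2 * e ≤ (Γ x ∩ Z).card)
  refine ⟨R', Finset.filter_subset _ _, ?_, ?_⟩
  · have h1 := hexp R' (Finset.filter_subset _ _)
    have h2 : (R'.biUnion Γ).card ≤ Z.card + ∑ x ∈ R', (Γ x \ Z).card := by
      have : R'.biUnion Γ ⊆ Z ∪ R'.biUnion (fun x => Γ x \ Z) := by
        intro c hc
        rw [Finset.mem_biUnion] at hc
        obtain ⟨x, hx, hc⟩ := hc
        by_cases hZ : c ∈ Z
        · exact Finset.mem_union_left _ hZ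
        · apply Finset.mem_union_right
          rw [Finset.mem_biUnion]
          exact ⟨x, hx, Finset.mem_sdiff.2 ⟨hc, hZ⟩⟩
      exact (Finset.card_le_card this).trans ((Finset.card_union_le _ _).trans
        (Nat.add_le_add_left Finset.card_biUnion_le _))
    have h3 : ∑ x ∈ R', (Γ x \ Z).card ≤ ∑ x ∈ R', 2 * e := by
      apply Finset.sum_le_sum
      intro x hx
      have hx' := (Finset.mem_filter.1 hx)
      have h4 := hΓ x hx'.1
      have h5 := Finset.card_sdiff_add_card_inter (Γ x) Z
      have h6 := hx'.2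
      omega
    rw [Finset.sum_const, smul_eq_mul] at h3
    nlinarith
  · let ι := {x // x ∈ R \ R'}
    have hall : ∀ s : Finset ι, s.card ≤ (s.biUnion (fun x => Γ x.1 \ Z)).card := by
      intro s
      let S : Finset X := s.image Subtype.val
      have hS : S ⊆ R \ R' := by
        intro x hx
        obtain ⟨y, hy, rfl⟩ := Finset.mem_image.1 hx
        exact y.2
      have hSR : S ⊆ R := hS.trans Finset.sdiff_subset
      have hc : S.card = s.card := Finset.card_image_of_injective _ Subtype.val_injective
      have h1 := hexp S hSR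
      have h2 : (S.biUnion Γ).card ≤ (s.biUnion (fun x => Γ x.1 \ Z)).card +
          ∑ x ∈ S, (Γ x ∩ Z).card := by
        have : S.biUnion Γ ⊆ s.biUnion (fun x => Γ x.1 \ Z) ∪ S.biUnion (fun x => Γ x ∩ Z) := by
          intro c hc
          rw [Finset.mem_biUnion] at hc
          obtain ⟨x, hx, hc⟩ := hc
          by_cases hZ : c ∈ Z
          · apply Finset.mem_union_right
            rw [Finset.mem_biUnion]
            exact ⟨x, hx, Finset.mem_inter.2 ⟨hc, hZ⟩⟩
          · apply Finset.mem_union_left
            obtain ⟨y, hy, rfl⟩ := Finset.mem_image.1 hx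
            rw [Finset.mem_biUnion]
            exact ⟨y, hy, Finset.mem_sdiff.2 ⟨hc, hZ⟩⟩
        exact (Finset.card_le_card this).trans ((Finset.card_union_le _ _).trans
          (Nat.add_le_add_left Finset.card_biUnion_le _))
      have h3 : ∑ x ∈ S, (Γ x ∩ Z).card ≤ ∑ x ∈ S, (2 * e - 1) := by
        apply Finset.sum_le_sum
        intro x hx
        have hx' := Finset.mem_sdiff.1 (hS hx)
        have : ¬ 2 * e ≤ (Γ x ∩ Z).card := fun h => hx'.2 (Finset.mem_filter.2 ⟨hx'.1, h⟩)
        omega
      rw [Finset.sum_const, smul_eq_mul] at h3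
      have h4 : S.card * (2 * e - 1) + S.card = S.card * (2 * e) := by
        rw [← Nat.mul_succ]
        congr 1
        omega
      have h5 : S.card * (2 * e) ≤ 3 * e * S.card := by nlinarith
      rw [← hc]
      omega
    obtain ⟨f, hf1, hf2⟩ := (Finset.all_card_le_biUnion_card_iff_exists_injective
      (fun x : ι => Γ x.1 \ Z)).1 hall
    rcases Finset.eq_empty_or_nonempty (R \ R') with hem | ⟨x₀, hx₀⟩
    · obtain ⟨c₀⟩ := (inferInstance : Nonempty C)
      refine ⟨fun _ => c₀, ?_, ?_⟩
      · rw [hem]; simp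
      · rw [hem]; simp
    · let c₀ : C := f ⟨x₀, hx₀⟩
      refine ⟨fun x => if h : x ∈ R \ R' then f ⟨x, h⟩ else c₀, ?_, ?_⟩
      · intro x hx y hy hxy
        have hx' : x ∈ R \ R' := hx
        have hy' : y ∈ R \ R' := hy
        simp only [hx', hy', dif_pos] at hxy
        have := hf1 hxy
        exact congrArg Subtype.val this
      · intro x hx
        simp only [hx, dif_pos]
        have := hf2 ⟨x, hx⟩
        exact Finset.mem_sdiff.1 this

/-- Partition of a finite set into blocks of bounded size. -/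
lemma exists_blocks (s : Finset ℕ) (D : ℕ) (hD : 1 ≤ D) :
    ∃ f : ℕ → ℕ, (∀ x ∈ s, f x < s.card / D + 1) ∧
      ∀ β, (s.filter (fun x => f x = β)).card ≤ D := by
  classical
  let i : ℕ → ℕ := fun x => (s.filter (fun y => y < x)).card
  have hi : ∀ x ∈ s, i x < s.card := by
    intro x hx
    apply Finset.card_lt_card
    rw [Finset.ssubset_iff_of_subset (Finset.filter_subset _ _)]
    exact ⟨x, hx, by simp⟩
  have hinj : Set.InjOn i (s : Set ℕ) := by
    intro x hx y hy hxy
    by_contra hne
    rcases Nat.lt_or_gt_of_ne hne with h | h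
    · have : i x < i y := by
        apply Finset.card_lt_card
        rw [Finset.ssubset_iff_of_subset]
        · refine ⟨x, ?_, by simp⟩
          rw [Finset.mem_filter]
          exact ⟨hx, h⟩
        · intro z hz
          rw [Finset.mem_filter] at hz ⊢
          exact ⟨hz.1, hz.2.trans h⟩
      omega
    · have : i y < i x := by
        apply Finset.card_lt_card
        rw [Finset.ssubset_iff_of_subset]
        · refine ⟨y, ?_, by simp⟩
          rw [Finset.mem_filter]
          exact ⟨hy, h⟩
        · intro z hz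
          rw [Finset.mem_filter] at hz ⊢
          exact ⟨hz.1, hz.2.trans h⟩
      omega
  refine ⟨fun x => i x / D, ?_, ?_⟩
  · intro x hx
    have := Nat.div_le_div_right (c := D) (hi x hx).le
    exact Nat.lt_succ_of_le this
  · intro β
    have : (s.filter (fun x => i x / D = β)).card ≤ (Finset.Ico (β * D) (β * D + D)).card := by
      apply Finset.card_le_card_of_injOn i
      · intro x hx
        have hx' : x ∈ s.filter (fun x => i x / D = β) := hx
        rw [Finset.mem_filter] at hx'
        have h1 := hx'.2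
        rw [Finset.coe_Ico, Set.mem_Ico]
        constructor
        · rw [← h1]
          exact Nat.div_mul_le_self _ _
        · rw [← h1]
          have := Nat.lt_div_mul_add (a := i x) (b := D) (by omega)
          exact this
      · intro x hx y hy hxy
        exact hinj (Finset.mem_filter.1 hx).1 (Finset.mem_filter.1 hy).1 hxy
    rw [Nat.card_Ico, Nat.add_sub_cancel_left] at this
    exact this

/-- Natural-number version of the expander together with the block structure. -/
lemma exists_level (n e K M D : ℕ) (he : 1 ≤ e) (hM : 1296 * (e * K) ≤ M)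
    (hX : n ≤ 2 ^ (4 * e - 1)) (hM0 : 0 < M) (hD : 1 ≤ D) :
    ∃ (Γ : ℕ → Finset ℕ) (bl : ℕ → ℕ → ℕ) (nb : ℕ → ℕ),
      (∀ x < n, (Γ x).card ≤ 4 * e) ∧ (∀ x < n, ∀ κ ∈ Γ x, κ < M) ∧
      (∀ S ⊆ range n, S.card ≤ K → 3 * e * S.card ≤ (S.biUnion Γ).card) ∧
      (∀ x < n, ∀ κ ∈ Γ x, bl κ x < nb κ) ∧
      (∀ κ β, ((range n).filter (fun x => κ ∈ Γ x ∧ bl κ x = β)).card ≤ D) ∧
      (∑ κ ∈ range M, nb κ ≤ 4 * e * n / D + M) := by
  classical
  obtain ⟨γ, hγ⟩ := exists_expander (Fin n) e K M he hM (by simpa using hX) hM0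
  let Γ : ℕ → Finset ℕ := fun x => if h : x < n then
    (univ.image (γ ⟨x, h⟩)).map Fin.valEmbedding else ∅
  have hΓ : ∀ (x : ℕ) (h : x < n), Γ x = (univ.image (γ ⟨x, h⟩)).map Fin.valEmbedding := by
    intro x h
    simp only [Γ, h, dif_pos]
  have hΓc : ∀ x < n, (Γ x).card ≤ 4 * e := by
    intro x hx
    rw [hΓ x hx, Finset.card_map]
    exact Finset.card_image_le.trans (by simp)
  choose f hf1 hf2 using fun κ => exists_blocks ((range n).filter (fun x => κ ∈ Γ x)) D hD
  refine ⟨Γ, f, fun κ => ((range n).filter (fun x => κ ∈ Γ x)).card / D + 1, hΓc, ?_, ?_, ?_, ?_, ?_⟩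
  · intro x hx κ hκ
    rw [hΓ x hx, Finset.mem_map] at hκ
    obtain ⟨c, -, rfl⟩ := hκ
    exact c.2
  · intro S hS hSK
    let S' : Finset (Fin n) := univ.filter (fun x => (x : ℕ) ∈ S)
    have hS'c : S'.card = S.card := by
      have : S'.map Fin.valEmbedding = S := by
        ext x
        rw [Finset.mem_map]
        constructor
        · rintro ⟨y, hy, rfl⟩
          exact (Finset.mem_filter.1 hy).2
        · intro hx
          exact ⟨⟨x, Finset.mem_range.1 (hS hx)⟩, by simp [S', hx], rfl⟩
      rw [← this, Finset.card_map]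
    have h1 := hγ S' (by rw [hS'c]; exact hSK)
    rw [hS'c] at h1
    refine h1.trans ?_
    have h2 : (S'.biUnion (fun x => univ.image (γ x))).map Fin.valEmbedding ⊆ S.biUnion Γ := by
      intro c hc
      rw [Finset.mem_map] at hc
      obtain ⟨c', hc', rfl⟩ := hc
      rw [Finset.mem_biUnion] at hc' ⊢
      obtain ⟨x, hx, hxc⟩ := hc'
      refine ⟨x, (Finset.mem_filter.1 hx).2, ?_⟩
      rw [hΓ x x.2]
      exact Finset.mem_map_of_mem _ hxc
    have h3 := Finset.card_le_card h2
    rwa [Finset.card_map] at h3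
  · intro x hx κ hκ
    exact hf1 κ x (Finset.mem_filter.2 ⟨Finset.mem_range.2 hx, hκ⟩)
  · intro κ β
    have := hf2 κ β
    rwa [Finset.filter_filter] at this
  · rw [Finset.sum_add_distrib]
    simp only [Finset.sum_const, Finset.card_range, smul_eq_mul, mul_one]
    apply Nat.add_le_add_right
    have h1 : ∑ κ ∈ range M, ((range n).filter (fun x => κ ∈ Γ x)).card ≤ 4 * e * n := by
      simp only [Finset.card_filter]
      rw [Finset.sum_comm]
      calc ∑ x ∈ range n, ∑ κ ∈ range M, (if κ ∈ Γ x then 1 else 0)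
          ≤ ∑ x ∈ range n, 4 * e := by
            apply Finset.sum_le_sum
            intro x hx
            rw [← Finset.card_filter]
            refine le_trans (Finset.card_le_card ?_) (hΓc x (Finset.mem_range.1 hx))
            intro κ hκ
            exact (Finset.mem_filter.1 hκ).2
        _ = 4 * e * n := by simp [mul_comm]
    have h2 : ∀ (s : Finset ℕ) (g : ℕ → ℕ), ∑ κ ∈ s, g κ / D ≤ (∑ κ ∈ s, g κ) / D := by
      intro s g
      induction s using Finset.induction_on with
      | empty => simp
      | insert a s ha ih =>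
        rw [Finset.sum_insert ha, Finset.sum_insert ha]
        exact (Nat.add_le_add_left ih _).trans (Nat.div_add_div_le_add_div)
    exact (h2 _ _).trans (Nat.div_le_div_right h1)

end Pool.Agent.helper38.EGT
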