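import Mathlib
import Pool.Agent.helper38.EGT2

set_option autoImplicit false

namespace Pool.Agent.helper38.EGT

open Finset

/-- A hub: level, part, clique, block, copy. -/
structure Hub where
  lev : ℕ
  part : ℕ
  cl : ℕ
  bk : ℕ
  cp : ℕ

noncomputable instance : DecidableEq Hub := Classical.decEq _

/-- The data of the construction. -/
structure Sys where
  L : ℕ
  N : ℕ → ℕ
  Γ : ℕ → ℕ → ℕ → Finset ℕ
  bl : ℕ → ℕ → ℕ → ℕ → ℕ
  nb : ℕ → ℕ → ℕ → ℕ

structure Sys.Good (P : Sys) : Prop where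
  L1 : 1 ≤ P.L
  card : ∀ p l, p < l → l ≤ P.L → ∀ x < P.N p, (P.Γ p l x).card ≤ 4 * (6 * P.L)
  lt : ∀ p l, p < l → l ≤ P.L → ∀ x < P.N p, ∀ κ ∈ P.Γ p l x, κ < P.N l
  exp : ∀ p l, p < l → l ≤ P.L → ∀ S ⊆ range (P.N p), S.card ≤ 2 ^ (P.L - l) →
    3 * (6 * P.L) * S.card ≤ (S.biUnion (P.Γ p l)).card
  bl_lt : ∀ p l, p < l → l ≤ P.L → ∀ x < P.N p, ∀ κ ∈ P.Γ p l x, P.bl p l κ x < P.nb p l κ
  bl_card : ∀ p l, 1 ≤ p → p < l → l ≤ P.L → ∀ κ β,
    ((range (P.N p)).filter (fun x => κ ∈ P.Γ p l x ∧ P.bl p l κ x = β)).card ≤ 2 ^ (l - p)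

/-- The hubs of the system. -/
def Sys.IsHub (P : Sys) (w : Hub) : Prop :=
  1 ≤ w.lev ∧ w.lev ≤ P.L ∧ w.cl < P.N w.lev ∧
    ((w.part < w.lev ∧ w.bk < P.nb w.part w.lev w.cl ∧ w.cp < 2 ^ (w.lev - 1)) ∨
      (w.part = w.lev ∧ w.bk = 0 ∧ w.cp < 2 ^ w.lev))

/-- The hub `w` covers the element `x` of part `p`. -/
def Sys.Cov (P : Sys) (w : Hub) (p x : ℕ) : Prop :=
  w.part = p ∧ p < w.lev ∧ x < P.N p ∧ w.cl ∈ P.Γ p w.lev x ∧ P.bl p w.lev w.cl x = w.bk

open Classical in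
/-- State of the assignment after the phases of all parts at least `p`. -/
structure Plan (P : Sys) (T : Finset Hub) (p : ℕ) (E : Finset Hub) : Prop where
  hub : ∀ w ∈ E, P.IsHub w ∧ w ∉ T
  part : ∀ w ∈ E, p ≤ w.part ∧ w.part < w.lev
  uniq : ∀ w ∈ E, ∀ w' ∈ E, w.lev = w'.lev → w.cl = w'.cl → w = w'
  indep : ∀ w ∈ E, ∀ w' ∈ E, ¬ P.Cov w w'.lev w'.cl
  kill : ∀ p', p ≤ p' → 1 ≤ p' → p' ≤ P.L → ∀ κ < P.N p',
    (∀ c < 2 ^ p', Hub.mk p' p' κ 0 c ∈ T) → ∃ w ∈ E, P.Cov w p' κ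
  cnt : ∀ l, 3 * P.L * (E.filter (fun w => w.lev = l)).card * 2 ^ l ≤ (P.L - p) * 2 ^ P.L
  cvr : ∀ p', 1 ≤ p' → p ≤ p' →
    3 * ((range (P.N p')).filter (fun κ => ∃ w ∈ E, P.Cov w p' κ)).card * 2 ^ p' ≤ 2 ^ P.L

/-- State inside of the phase of part `p`, before level `l`. -/
structure Inner (P : Sys) (T E : Finset Hub) (p : ℕ) (R : Finset ℕ) (l : ℕ) (E' : Finset Hub)
    (R' : Finset ℕ) : Prop where
  sub : E ⊆ E'
  new : ∀ w ∈ E', w ∉ E → w.part = p ∧ p < w.lev ∧ w.lev < l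
  hub : ∀ w ∈ E', P.IsHub w ∧ w ∉ T
  uniq : ∀ w ∈ E', ∀ w' ∈ E', w.lev = w'.lev → w.cl = w'.cl → w = w'
  indep : ∀ w ∈ E', ∀ w' ∈ E', ¬ P.Cov w w'.lev w'.cl
  rsub : R' ⊆ R
  rcov : ∀ x ∈ R, x ∉ R' → ∃ w ∈ E', P.Cov w p x
  rcard : 3 * P.L * R'.card * 2 ^ l ≤ 2 ^ P.L
  ncard : ∀ l', 3 * P.L * ((E' \ E).filter (fun w => w.lev = l')).card * 2 ^ l' ≤ 2 ^ P.L

open Classical in
/-- Counting lemma for full sets of copies in `T`. -/
lemma count_full (T : Finset Hub) (A : Finset ℕ) (l k : ℕ) (p β : ℕ → ℕ)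
    (h : ∀ κ ∈ A, ∀ c < k, Hub.mk l (p κ) κ (β κ) c ∈ T) : A.card * k ≤ T.card := by
  have : (A ×ˢ range k).card ≤ T.card := by
    apply Finset.card_le_card_of_injOn (fun q => Hub.mk l (p q.1) q.1 (β q.1) q.2)
    · intro q hq
      have hq' : q ∈ A ×ˢ range k := hq
      rw [Finset.mem_product] at hq'
      exact h q.1 hq'.1 q.2 (Finset.mem_range.1 hq'.2)
    · intro q _ q' _ hqq
      simp only [Hub.mk.injEq] at hqq
      exact Prod.ext hqq.2.2.1 hqq.2.2.2.2
  rwa [Finset.card_product, Finset.card_range] at this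

lemma inner_step {P : Sys} (hP : P.Good) {T : Finset Hub} (hT : 6 * P.L * T.card ≤ 2 ^ P.L)
    {p : ℕ} {E : Finset Hub} (hE : Plan P T (p + 1) E) {R : Finset ℕ} (hR : R ⊆ range (P.N p))
    {l : ℕ} (hpl : p < l) (hl : l ≤ P.L) {E' : Finset Hub} {R' : Finset ℕ}
    (h : Inner P T E p R l E' R') : ∃ E'' R'', Inner P T E p R (l + 1) E'' R'' := by
  classical
  have hL := hP.L1
  have hl1 : 1 ≤ l := by omega
  let Bs : Finset ℕ := (range (P.N l)).filter (fun κ => ∃ p' β, ∀ c < 2 ^ (l - 1),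
    Hub.mk l p' κ β c ∈ T)
  let Cs : Finset ℕ := (range (P.N l)).filter (fun κ => ∃ w ∈ E, P.Cov w l κ)
  let Us : Finset ℕ := (E.filter (fun w => w.lev = l)).image Hub.cl
  have hpow : 2 * 2 ^ (l - 1) = 2 ^ l := by
    rw [← pow_succ']
    congr 1
    omega
  have hB : 3 * Bs.card * 2 ^ l ≤ 2 ^ P.L := by
    have hex : ∀ κ, ∃ q : ℕ × ℕ, κ ∈ Bs → ∀ c < 2 ^ (l - 1), Hub.mk l q.1 κ q.2 c ∈ T := by
      intro κ
      by_cases hκ : κ ∈ Bs
      · obtain ⟨p', β, hc⟩ := (Finset.mem_filter.1 hκ).2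
        exact ⟨(p', β), fun _ => hc⟩
      · exact ⟨(0, 0), fun h => absurd h hκ⟩
    choose q hq using hex
    have h1 := count_full T Bs l (2 ^ (l - 1)) (fun κ => (q κ).1) (fun κ => (q κ).2)
      (fun κ hκ => hq κ hκ)
    calc 3 * Bs.card * 2 ^ l = 6 * (Bs.card * 2 ^ (l - 1)) := by rw [← hpow]; ring
      _ ≤ 6 * T.card := Nat.mul_le_mul_left _ h1
      _ ≤ 6 * P.L * T.card := by nlinarith
      _ ≤ 2 ^ P.L := hT
  have hC : 3 * Cs.card * 2 ^ l ≤ 2 ^ P.L := hE.cvr l hl1 (by omega)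
  have hU : 3 * Us.card * 2 ^ l ≤ 2 ^ P.L := by
    have h1 : Us.card ≤ (E.filter (fun w => w.lev = l)).card := Finset.card_image_le
    have h2 := hE.cnt l
    have h3 : P.L * (3 * Us.card * 2 ^ l) ≤ P.L * 2 ^ P.L := by
      calc P.L * (3 * Us.card * 2 ^ l) = 3 * P.L * Us.card * 2 ^ l := by ring
        _ ≤ 3 * P.L * (E.filter (fun w => w.lev = l)).card * 2 ^ l := by gcongr
        _ ≤ (P.L - (p + 1)) * 2 ^ P.L := h2
        _ ≤ P.L * 2 ^ P.L := Nat.mul_le_mul_right _ (Nat.sub_le _ _)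
    exact Nat.le_of_mul_le_mul_left h3 (by omega)
  let Z : Finset ℕ := Bs ∪ Cs ∪ Us
  have hZ : Z.card * 2 ^ l ≤ 2 ^ P.L := by
    have h1 : Z.card ≤ Bs.card + Cs.card + Us.card :=
      (Finset.card_union_le _ _).trans (Nat.add_le_add_right (Finset.card_union_le _ _) _)
    have h2 := Nat.mul_le_mul_right (2 ^ l) h1
    have h3 : (Bs.card + Cs.card + Us.card) * 2 ^ l =
      Bs.card * 2 ^ l + Cs.card * 2 ^ l + Us.card * 2 ^ l := by ring
    have h4 : 3 * Bs.card * 2 ^ l = 3 * (Bs.card * 2 ^ l) := by ring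
    have h5 : 3 * Cs.card * 2 ^ l = 3 * (Cs.card * 2 ^ l) := by ring
    have h6 : 3 * Us.card * 2 ^ l = 3 * (Us.card * 2 ^ l) := by ring
    omega
  have hR'N : R' ⊆ range (P.N p) := h.rsub.trans hR
  have hR'c : R'.card ≤ 2 ^ (P.L - l) := by
    have h1 : R'.card * 2 ^ l ≤ 2 ^ P.L := by
      calc R'.card * 2 ^ l ≤ 3 * P.L * R'.card * 2 ^ l := by
            have : R'.card ≤ 3 * P.L * R'.card := by nlinarith
            exact Nat.mul_le_mul_right _ this
        _ ≤ 2 ^ P.L := h.rcard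
    have h2 : 2 ^ P.L = 2 ^ (P.L - l) * 2 ^ l := by
      rw [← pow_add]
      congr 1
      omega
    rw [h2] at h1
    exact Nat.le_of_mul_le_mul_right h1 (by positivity)
  obtain ⟨R'', hR''1, hR''2, μ, hμ1, hμ2⟩ := matching (6 * P.L) (by omega) (P.Γ p l) R'
    (fun x hx => hP.card p l hpl hl x (Finset.mem_range.1 (hR'N hx)))
    (fun S hS => hP.exp p l hpl hl S (hS.trans hR'N) ((Finset.card_le_card hS).trans hR'c)) Z
  have hcp : ∀ x, ∃ c, x ∈ R' \ R'' → c < 2 ^ (l - 1) ∧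
      Hub.mk l p (μ x) (P.bl p l (μ x) x) c ∉ T := by
    intro x
    by_cases hx : x ∈ R' \ R''
    · have h1 := hμ2 x hx
      have h2 : μ x < P.N l := hP.lt p l hpl hl x
        (Finset.mem_range.1 (hR'N (Finset.mem_sdiff.1 hx).1)) _ h1.1
      have h3 : μ x ∉ Bs := fun h' => h1.2 (Finset.mem_union_left _ (Finset.mem_union_left _ h'))
      have h4 : ¬ ∀ c < 2 ^ (l - 1), Hub.mk l p (μ x) (P.bl p l (μ x) x) c ∈ T := by
        intro h5
        exact h3 (Finset.mem_filter.2 ⟨Finset.mem_range.2 h2, _, _, h5⟩)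
      push Not at h4
      obtain ⟨c, hc1, hc2⟩ := h4
      exact ⟨c, fun _ => ⟨hc1, hc2⟩⟩
    · exact ⟨0, fun h' => absurd h' hx⟩
  choose cp hcp using hcp
  let hb : ℕ → Hub := fun x => Hub.mk l p (μ x) (P.bl p l (μ x) x) (cp x)
  let E'' : Finset Hub := E' ∪ (R' \ R'').image hb
  have hlevE : ∀ w ∈ E, p + 1 < w.lev := by
    intro w hw
    have := hE.part w hw
    omega
  have hlevE' : ∀ w ∈ E', p < w.lev := by
    intro w hw
    by_cases hwE : w ∈ E
    · have := hlevE w hwE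
      omega
    · exact (h.new w hw hwE).2.1
  have hlev'' : ∀ w ∈ E'', p < w.lev := by
    intro w hw
    rcases Finset.mem_union.1 hw with hw | hw
    · exact hlevE' w hw
    · obtain ⟨x, -, rfl⟩ := Finset.mem_image.1 hw
      exact hpl
  have hmem : ∀ x ∈ R' \ R'', x < P.N p ∧ μ x ∈ P.Γ p l x ∧ μ x ∉ Z := by
    intro x hx
    exact ⟨Finset.mem_range.1 (hR'N (Finset.mem_sdiff.1 hx).1), hμ2 x hx⟩
  refine ⟨E'', R'', ?_, ?_, ?_, ?_, ?_, ?_, ?_, ?_, ?_⟩
  · exact h.sub.trans Finset.subset_union_left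
  · intro w hw hwE
    rcases Finset.mem_union.1 hw with hw | hw
    · have := h.new w hw hwE
      exact ⟨this.1, this.2.1, by omega⟩
    · obtain ⟨x, -, rfl⟩ := Finset.mem_image.1 hw
      exact ⟨rfl, hpl, Nat.lt_succ_self _⟩
  · intro w hw
    rcases Finset.mem_union.1 hw with hw | hw
    · exact h.hub w hw
    · obtain ⟨x, hx, rfl⟩ := Finset.mem_image.1 hw
      obtain ⟨h1, h2, h3⟩ := hmem x hx
      refine ⟨⟨hl1, hl, hP.lt p l hpl hl x h1 _ h2, Or.inl ⟨hpl, hP.bl_lt p l hpl hl x h1 _ h2,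
        (hcp x hx).1⟩⟩, (hcp x hx).2⟩
  · -- uniqueness
    have key : ∀ w ∈ E', ∀ x ∈ R' \ R'', w.lev = l → w.cl ≠ μ x := by
      intro w hw x hx hwl hcl
      have hwE : w ∈ E := by
        by_contra hwE
        have := (h.new w hw hwE).2.2
        omega
      apply (hmem x hx).2.2
      apply Finset.mem_union_right
      exact Finset.mem_image.2 ⟨w, Finset.mem_filter.2 ⟨hwE, hwl⟩, hcl⟩
    intro w hw w' hw' h1 h2
    rcases Finset.mem_union.1 hw with hw | hw <;> rcases Finset.mem_union.1 hw' with hw' | hw'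
    · exact h.uniq w hw w' hw' h1 h2
    · obtain ⟨x, hx, rfl⟩ := Finset.mem_image.1 hw'
      exact absurd h2 (key w hw x hx h1)
    · obtain ⟨x, hx, rfl⟩ := Finset.mem_image.1 hw
      exact absurd h2.symm (key w' hw' x hx h1.symm)
    · obtain ⟨x, hx, rfl⟩ := Finset.mem_image.1 hw
      obtain ⟨y, hy, rfl⟩ := Finset.mem_image.1 hw'
      have : x = y := hμ1 hx hy h2
      rw [this]
  · -- independence
    intro w hw w' hw' hcov
    rcases Finset.mem_union.1 hw with hw1 | hw1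
    · rcases Finset.mem_union.1 hw' with hw1' | hw1'
      · exact h.indep w hw1 w' hw1' hcov
      · obtain ⟨x, hx, rfl⟩ := Finset.mem_image.1 hw1'
        have hwE : w ∈ E := by
          by_contra hwE
          have h1 := (h.new w hw1 hwE).1
          have h2 : w.part = l := hcov.1
          omega
        apply (hmem x hx).2.2
        apply Finset.mem_union_left
        apply Finset.mem_union_right
        exact Finset.mem_filter.2 ⟨Finset.mem_range.2 hcov.2.2.1, w, hwE, hcov⟩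
    · obtain ⟨x, hx, rfl⟩ := Finset.mem_image.1 hw1
      have h1 : p = w'.lev := hcov.1
      have h2 := hlev'' w' hw'
      omega
  · exact hR''1.trans h.rsub
  · intro x hx hxR
    by_cases hxR' : x ∈ R'
    · have hx' : x ∈ R' \ R'' := Finset.mem_sdiff.2 ⟨hxR', hxR⟩
      obtain ⟨h1, h2, h3⟩ := hmem x hx'
      exact ⟨hb x, Finset.mem_union_right _ (Finset.mem_image_of_mem _ hx'), rfl, hpl, h1, h2, rfl⟩
    · obtain ⟨w, hw, hc⟩ := h.rcov x hx hxR'
      exact ⟨w, Finset.mem_union_left _ hw, hc⟩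
  · calc 3 * P.L * R''.card * 2 ^ (l + 1) = (R''.card * (6 * P.L)) * 2 ^ l := by
          rw [pow_succ]; ring
      _ ≤ Z.card * 2 ^ l := Nat.mul_le_mul_right _ hR''2
      _ ≤ 2 ^ P.L := hZ
  · intro l'
    by_cases hll : l' = l
    · subst hll
      have h1 : ((E'' \ E).filter (fun w => w.lev = l')) ⊆ (R' \ R'').image hb := by
        intro w hw
        rw [Finset.mem_filter, Finset.mem_sdiff] at hw
        rcases Finset.mem_union.1 hw.1.1 with h2 | h2
        · have := (h.new w h2 hw.1.2).2.2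
          omega
        · exact h2
      have h2 : ((E'' \ E).filter (fun w => w.lev = l')).card ≤ R'.card :=
        (Finset.card_le_card h1).trans (Finset.card_image_le.trans
          (Finset.card_le_card Finset.sdiff_subset))
      calc 3 * P.L * ((E'' \ E).filter (fun w => w.lev = l')).card * 2 ^ l'
          ≤ 3 * P.L * R'.card * 2 ^ l' := by gcongr
        _ ≤ 2 ^ P.L := h.rcard
    · have h1 : ((E'' \ E).filter (fun w => w.lev = l')) ⊆
          ((E' \ E).filter (fun w => w.lev = l')) := by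
        intro w hw
        rw [Finset.mem_filter, Finset.mem_sdiff] at hw ⊢
        rcases Finset.mem_union.1 hw.1.1 with h2 | h2
        · exact ⟨⟨h2, hw.1.2⟩, hw.2⟩
        · obtain ⟨x, -, rfl⟩ := Finset.mem_image.1 h2
          exact absurd hw.2.symm hll
      calc 3 * P.L * ((E'' \ E).filter (fun w => w.lev = l')).card * 2 ^ l'
          ≤ 3 * P.L * ((E' \ E).filter (fun w => w.lev = l')).card * 2 ^ l' := by
            have := Finset.card_le_card h1
            gcongr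
        _ ≤ 2 ^ P.L := h.ncard l'

lemma inner_run {P : Sys} (hP : P.Good) {T : Finset Hub} (hT : 6 * P.L * T.card ≤ 2 ^ P.L)
    {p : ℕ} {E : Finset Hub} (hE : Plan P T (p + 1) E) (hpL : p + 1 ≤ P.L) {R : Finset ℕ}
    (hR : R ⊆ range (P.N p)) (hRc : 3 * P.L * R.card * 2 ^ (p + 1) ≤ 2 ^ P.L) :
    ∀ k, p + 1 + k ≤ P.L + 1 → ∃ E' R', Inner P T E p R (p + 1 + k) E' R' := by
  intro k
  induction k with
  | zero =>
    intro _
    refine ⟨E, R, subset_rfl, ?_, hE.hub, hE.uniq, hE.indep, subset_rfl, ?_, hRc, ?_⟩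
    · intro w hw hw'
      exact absurd hw hw'
    · intro x hx hx'
      exact absurd hx hx'
    · intro l'
      simp
  | succ k ih =>
    intro hk
    obtain ⟨E', R', h⟩ := ih (by omega)
    exact inner_step (l := p + 1 + k) hP hT hE hR (by omega) (by omega) h

lemma plan_step {P : Sys} (hP : P.Good) {T : Finset Hub} (hT : 6 * P.L * T.card ≤ 2 ^ P.L)
    {p : ℕ} {E : Finset Hub} (hE : Plan P T (p + 1) E) (hpL : p + 1 ≤ P.L) {R : Finset ℕ}
    (hR : R ⊆ range (P.N p)) (hRc : 3 * P.L * R.card * 2 ^ (p + 1) ≤ 2 ^ P.L)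
    (hkill : 1 ≤ p → ∀ κ < P.N p, (∀ c < 2 ^ p, Hub.mk p p κ 0 c ∈ T) → κ ∈ R) :
    ∃ E', Plan P T p E' ∧ ∀ x ∈ R, ∃ w ∈ E', P.Cov w p x := by
  classical
  have hL := hP.L1
  obtain ⟨E', R', h⟩ := inner_run hP hT hE hpL hR hRc (P.L - p) (by omega)
  have hlast : p + 1 + (P.L - p) = P.L + 1 := by omega
  rw [hlast] at h
  have hR' : R' = ∅ := by
    rw [← Finset.card_eq_zero]
    by_contra hne
    have h1 : 1 ≤ R'.card := by omega
    have h2 := h.rcard
    have h3 : 2 ^ P.L < 3 * P.L * R'.card * 2 ^ (P.L + 1) := by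
      have h4 : 1 ≤ 3 * P.L * R'.card := by
        have : 1 ≤ 3 * P.L := by omega
        nlinarith
      have h5 : (0 : ℕ) < 2 ^ P.L := by positivity
      calc 2 ^ P.L < 1 * 2 ^ (P.L + 1) := by rw [pow_succ]; omega
        _ ≤ 3 * P.L * R'.card * 2 ^ (P.L + 1) := Nat.mul_le_mul_right _ h4
    omega
  have hcov : ∀ x ∈ R, ∃ w ∈ E', P.Cov w p x := by
    intro x hx
    exact h.rcov x hx (by rw [hR']; simp)
  refine ⟨E', ⟨h.hub, ?_, h.uniq, h.indep, ?_, ?_, ?_⟩, hcov⟩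
  · intro w hw
    by_cases hwE : w ∈ E
    · have := hE.part w hwE
      exact ⟨by omega, this.2⟩
    · have := h.new w hw hwE
      exact ⟨this.1.ge, by rw [this.1]; exact this.2.1⟩
  · intro p' hp' h1 h2 κ hκ hT'
    rcases Nat.eq_or_lt_of_le hp' with h3 | h3
    · subst h3
      exact hcov κ (hkill h1 κ hκ hT')
    · obtain ⟨w, hw, hc⟩ := hE.kill p' h3 h1 h2 κ hκ hT'
      exact ⟨w, h.sub hw, hc⟩
  · intro l
    have h1 : (E'.filter (fun w => w.lev = l)) ⊆
        (E.filter (fun w => w.lev = l)) ∪ ((E' \ E).filter (fun w => w.lev = l)) := by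
      intro w hw
      rw [Finset.mem_filter] at hw
      rw [Finset.mem_union, Finset.mem_filter, Finset.mem_filter, Finset.mem_sdiff]
      by_cases hwE : w ∈ E
      · exact Or.inl ⟨hwE, hw.2⟩
      · exact Or.inr ⟨⟨hw.1, hwE⟩, hw.2⟩
    have h2 := (Finset.card_le_card h1).trans (Finset.card_union_le _ _)
    have h3 := hE.cnt l
    have h4 := h.ncard l
    have h5 : (P.L - p) * 2 ^ P.L = (P.L - (p + 1)) * 2 ^ P.L + 2 ^ P.L := by
      have : P.L - p = (P.L - (p + 1)) + 1 := by omega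
      rw [this]; ring
    rw [h5]
    calc 3 * P.L * (E'.filter (fun w => w.lev = l)).card * 2 ^ l
        ≤ 3 * P.L * ((E.filter (fun w => w.lev = l)).card +
          ((E' \ E).filter (fun w => w.lev = l)).card) * 2 ^ l := by gcongr
      _ = 3 * P.L * (E.filter (fun w => w.lev = l)).card * 2 ^ l +
          3 * P.L * ((E' \ E).filter (fun w => w.lev = l)).card * 2 ^ l := by ring
      _ ≤ _ := Nat.add_le_add h3 h4
  · intro p' h1 hp'
    rcases Nat.eq_or_lt_of_le hp' with h3 | h3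
    · subst h3
      -- coverage of the part p
      have hsub : (range (P.N p)).filter (fun κ => ∃ w ∈ E', P.Cov w p κ) ⊆
          (Finset.Ioc p P.L).biUnion (fun l => ((E' \ E).filter (fun w => w.lev = l)).biUnion
            (fun w => (range (P.N p)).filter
              (fun x => w.cl ∈ P.Γ p l x ∧ P.bl p l w.cl x = w.bk))) := by
        intro κ hκ
        rw [Finset.mem_filter] at hκ
        obtain ⟨hκ1, w, hw, hc⟩ := hκ
        have hwE : w ∉ E := by
          intro hwE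
          have h4 := (hE.part w hwE).1
          have h5 : w.part = p := hc.1
          omega
        have h6 := h.new w hw hwE
        rw [Finset.mem_biUnion]
        refine ⟨w.lev, ?_, ?_⟩
        · rw [Finset.mem_Ioc]
          exact ⟨h6.2.1, by omega⟩
        · rw [Finset.mem_biUnion]
          refine ⟨w, ?_, ?_⟩
          · rw [Finset.mem_filter, Finset.mem_sdiff]
            exact ⟨⟨hw, hwE⟩, rfl⟩
          · rw [Finset.mem_filter]
            exact ⟨hκ1, hc.2.2.2.1, hc.2.2.2.2⟩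
      have hcard : ((range (P.N p)).filter (fun κ => ∃ w ∈ E', P.Cov w p κ)).card ≤
          ∑ l ∈ Finset.Ioc p P.L, ((E' \ E).filter (fun w => w.lev = l)).card * 2 ^ (l - p) := by
        refine (Finset.card_le_card hsub).trans (Finset.card_biUnion_le.trans ?_)
        apply Finset.sum_le_sum
        intro l hl
        rw [Finset.mem_Ioc] at hl
        refine Finset.card_biUnion_le.trans ?_
        rw [← smul_eq_mul, ← Finset.sum_const]
        apply Finset.sum_le_sum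
        intro w _
        exact hP.bl_card p l h1 hl.1 hl.2 _ _
      have h7 : P.L * (3 * ((range (P.N p)).filter (fun κ => ∃ w ∈ E', P.Cov w p κ)).card * 2 ^ p)
          ≤ P.L * 2 ^ P.L := by
        calc P.L * (3 * ((range (P.N p)).filter (fun κ => ∃ w ∈ E', P.Cov w p κ)).card * 2 ^ p)
            ≤ P.L * (3 * (∑ l ∈ Finset.Ioc p P.L,
              ((E' \ E).filter (fun w => w.lev = l)).card * 2 ^ (l - p)) * 2 ^ p) := by gcongr
          _ = ∑ l ∈ Finset.Ioc p P.L,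
              3 * P.L * ((E' \ E).filter (fun w => w.lev = l)).card * 2 ^ l := by
              rw [Finset.mul_sum, Finset.sum_mul, Finset.mul_sum]
              apply Finset.sum_congr rfl
              intro l hl
              rw [Finset.mem_Ioc] at hl
              have : 2 ^ l = 2 ^ (l - p) * 2 ^ p := by
                rw [← pow_add]; congr 1; omega
              rw [this]; ring
          _ ≤ ∑ l ∈ Finset.Ioc p P.L, 2 ^ P.L := Finset.sum_le_sum (fun l _ => h.ncard l)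
          _ = (P.L - p) * 2 ^ P.L := by simp
          _ ≤ P.L * 2 ^ P.L := Nat.mul_le_mul_right _ (Nat.sub_le _ _)
      exact Nat.le_of_mul_le_mul_left h7 hL
    · have h4 : (range (P.N p')).filter (fun κ => ∃ w ∈ E', P.Cov w p' κ) ⊆
          (range (P.N p')).filter (fun κ => ∃ w ∈ E, P.Cov w p' κ) := by
        intro κ hκ
        rw [Finset.mem_filter] at hκ ⊢
        obtain ⟨hκ1, w, hw, hc⟩ := hκ
        refine ⟨hκ1, w, ?_, hc⟩
        by_contra hwE
        have h5 := (h.new w hw hwE).1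
        have h6 : w.part = p' := hc.1
        omega
      have h5 := Finset.card_le_card h4
      have h6 := hE.cvr p' h1 h3
      calc 3 * ((range (P.N p')).filter (fun κ => ∃ w ∈ E', P.Cov w p' κ)).card * 2 ^ p'
          ≤ 3 * ((range (P.N p')).filter (fun κ => ∃ w ∈ E, P.Cov w p' κ)).card * 2 ^ p' := by
            gcongr
        _ ≤ 2 ^ P.L := h6

lemma plan_init {P : Sys} (hP : P.Good) {T : Finset Hub} (hT : 6 * P.L * T.card ≤ 2 ^ P.L) :
    Plan P T P.L ∅ := by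
  classical
  have hL := hP.L1
  refine ⟨by simp, by simp, by simp, by simp, ?_, by simp, ?_⟩
  · intro p' h1 h2 h3 κ hκ h4
    exfalso
    have h5 : p' = P.L := by omega
    subst h5
    have h6 := count_full T {κ} P.L (2 ^ P.L) (fun _ => P.L) (fun _ => 0) (by
      intro κ' hκ' c hc
      rw [Finset.mem_singleton] at hκ'
      subst hκ'
      exact h4 c hc)
    rw [Finset.card_singleton, one_mul] at h6
    have h7 : (0 : ℕ) < 2 ^ P.L := by positivity
    nlinarith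
  · intro p' _ _
    have : (range (P.N p')).filter (fun κ => ∃ w ∈ (∅ : Finset Hub), P.Cov w p' κ) = ∅ := by
      ext κ; simp
    rw [this]
    simp

lemma plan_exists {P : Sys} (hP : P.Good) {T : Finset Hub} (hT : 6 * P.L * T.card ≤ 2 ^ P.L) :
    ∀ k, k + 1 ≤ P.L → ∃ E, Plan P T (P.L - k) E := by
  classical
  intro k
  induction k with
  | zero =>
    intro _
    exact ⟨∅, by simpa using plan_init hP hT⟩
  | succ k ih =>
    intro hk
    obtain ⟨E, hE⟩ := ih (by omega)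
    have h1 : P.L - k = (P.L - (k + 1)) + 1 := by omega
    rw [h1] at hE
    set p := P.L - (k + 1) with hp
    have hp1 : 1 ≤ p := by omega
    let R : Finset ℕ := (range (P.N p)).filter (fun κ => ∀ c < 2 ^ p, Hub.mk p p κ 0 c ∈ T)
    have hRc : R.card * 2 ^ p ≤ T.card :=
      count_full T R p (2 ^ p) (fun _ => p) (fun _ => 0)
        (fun κ hκ c hc => (Finset.mem_filter.1 hκ).2 c hc)
    obtain ⟨E', hE', -⟩ := plan_step hP hT hE (by omega) (R := R) (Finset.filter_subset _ _)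
      (by
        calc 3 * P.L * R.card * 2 ^ (p + 1) = 6 * P.L * (R.card * 2 ^ p) := by
              rw [pow_succ]; ring
          _ ≤ 6 * P.L * T.card := Nat.mul_le_mul_left _ hRc
          _ ≤ 2 ^ P.L := hT)
      (fun _ κ hκ hc => Finset.mem_filter.2 ⟨Finset.mem_range.2 hκ, hc⟩)
    exact ⟨E', hE'⟩

lemma plan_final {P : Sys} (hP : P.Good) {T : Finset Hub} (hT : 6 * P.L * T.card ≤ 2 ^ P.L)
    {TA : Finset ℕ} (hTA : TA ⊆ range (P.N 0)) (hTAc : 6 * P.L * TA.card ≤ 2 ^ P.L) :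
    ∃ E, Plan P T 0 E ∧ ∀ x ∈ TA, ∃ w ∈ E, P.Cov w 0 x := by
  have hL := hP.L1
  obtain ⟨E, hE⟩ := plan_exists hP hT (P.L - 1) (by omega)
  have h1 : P.L - (P.L - 1) = 0 + 1 := by omega
  rw [h1] at hE
  exact plan_step hP hT hE (by omega) hTA (by
    calc 3 * P.L * TA.card * 2 ^ (0 + 1) = 6 * P.L * TA.card := by ring
      _ ≤ _ := hTAc) (fun h => absurd h (by omega))

/-- Adjacency of hubs (in the complement of the final graph). -/
def Sys.HAdj (P : Sys) (w w' : Hub) : Prop :=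
  (w ≠ w' ∧ w.lev = w'.lev ∧ w.cl = w'.cl) ∨ P.Cov w w'.lev w'.cl ∨ P.Cov w' w.lev w.cl

lemma Sys.HAdj.symm {P : Sys} {w w' : Hub} (h : P.HAdj w w') : P.HAdj w' w := by
  rcases h with h | h | h
  · exact Or.inl ⟨h.1.symm, h.2.1.symm, h.2.2.symm⟩
  · exact Or.inr (Or.inr h)
  · exact Or.inr (Or.inl h)

lemma Sys.HAdj.irrefl {P : Sys} {w : Hub} (h : P.HAdj w w) : False := by
  rcases h with h | h | h
  · exact h.1 rfl
  · have h1 : w.part = w.lev := h.1
    have h2 : w.lev < w.lev := h.2.1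
    omega
  · have h1 : w.part = w.lev := h.1
    have h2 : w.lev < w.lev := h.2.1
    omega

/-- The independent set of hubs avoiding and dominating a given small set. -/
theorem dominating {P : Sys} (hP : P.Good) {T : Finset Hub} (hT : 6 * P.L * T.card ≤ 2 ^ P.L)
    {TA : Finset ℕ} (hTA : TA ⊆ range (P.N 0)) (hTAc : 6 * P.L * TA.card ≤ 2 ^ P.L) :
    ∃ J : Set Hub, (∀ w ∈ J, P.IsHub w ∧ w ∉ T) ∧ (∀ w ∈ J, ∀ w' ∈ J, ¬ P.HAdj w w') ∧
      (∀ w ∈ T, P.IsHub w → ∃ w' ∈ J, P.HAdj w w') ∧ ∀ x ∈ TA, ∃ w ∈ J, P.Cov w 0 x := by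
  classical
  obtain ⟨E, hE, hEA⟩ := plan_final hP hT hTA hTAc
  -- free cliques
  let free : ℕ → ℕ → Prop := fun l κ => 1 ≤ l ∧ l ≤ P.L ∧ κ < P.N l ∧
    (¬ ∃ w ∈ E, P.Cov w l κ) ∧ ¬ ∃ w ∈ E, w.lev = l ∧ w.cl = κ
  have hdum : ∀ l κ, ∃ c, free l κ → c < 2 ^ l ∧ Hub.mk l l κ 0 c ∉ T := by
    intro l κ
    by_cases h : free l κ
    · obtain ⟨h1, h2, h3, h4, h5⟩ := h
      have h6 : ¬ ∀ c < 2 ^ l, Hub.mk l l κ 0 c ∈ T := fun h7 =>
        h4 (hE.kill l (Nat.zero_le _) h1 h2 κ h3 h7)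
      push Not at h6
      obtain ⟨c, hc1, hc2⟩ := h6
      exact ⟨c, fun _ => ⟨hc1, hc2⟩⟩
    · exact ⟨0, fun h' => absurd h' h⟩
  choose c hc using hdum
  let J : Set Hub := {w | w ∈ E ∨ ∃ l κ, free l κ ∧ w = Hub.mk l l κ 0 (c l κ)}
  refine ⟨J, ?_, ?_, ?_, ?_⟩
  · rintro w (hw | ⟨l, κ, hf, rfl⟩)
    · exact hE.hub w hw
    · exact ⟨⟨hf.1, hf.2.1, hf.2.2.1, Or.inr ⟨rfl, rfl, (hc l κ hf).1⟩⟩, (hc l κ hf).2⟩
  · -- independence
    have key : ∀ w ∈ E, ∀ l κ, free l κ → ¬ P.HAdj w (Hub.mk l l κ 0 (c l κ)) := by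
      intro w hw l κ hf h
      rcases h with h | h | h
      · exact hf.2.2.2.2 ⟨w, hw, h.2.1, h.2.2⟩
      · exact hf.2.2.2.1 ⟨w, hw, h⟩
      · have h1 : l = w.lev := h.1
        have h2 : w.lev < l := h.2.1
        omega
    rintro w (hw | ⟨l, κ, hf, rfl⟩) w' (hw' | ⟨l', κ', hf', rfl⟩) h
    · rcases h with h | h | h
      · exact h.1 (hE.uniq w hw w' hw' h.2.1 h.2.2)
      · exact hE.indep w hw w' hw' h
      · exact hE.indep w' hw' w hw h
    · exact key w hw l' κ' hf' h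
    · exact key w' hw' l κ hf h.symm
    · rcases h with h | h | h
      · apply h.1
        have h1 : l = l' := h.2.1
        have h2 : κ = κ' := h.2.2
        subst h1; subst h2; rfl
      · have h1 : l = l' := h.1
        have h2 : l' < l := h.2.1
        omega
      · have h1 : l' = l := h.1
        have h2 : l < l' := h.2.1
        omega
  · intro w hwT hw
    by_cases h1 : ∃ w' ∈ E, P.Cov w' w.lev w.cl
    · obtain ⟨w', hw', hcov⟩ := h1
      exact ⟨w', Or.inl hw', Or.inr (Or.inr hcov)⟩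
    · by_cases h2 : ∃ w' ∈ E, w'.lev = w.lev ∧ w'.cl = w.cl
      · obtain ⟨w', hw', h3, h4⟩ := h2
        refine ⟨w', Or.inl hw', Or.inl ⟨?_, h3.symm, h4.symm⟩⟩
        rintro rfl
        exact (hE.hub w hw').2 hwT
      · have hf : free w.lev w.cl := ⟨hw.1, hw.2.1, hw.2.2.1, h1, h2⟩
        refine ⟨_, Or.inr ⟨w.lev, w.cl, hf, rfl⟩, Or.inl ⟨?_, rfl, rfl⟩⟩
        intro h3
        apply (hc _ _ hf).2
        rw [← h3]
        exact hwT
  · intro x hx
    obtain ⟨w, hw, hcov⟩ := hEA x hx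
    exact ⟨w, Or.inl hw, hcov⟩

end Pool.Agent.helper38.EGT
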