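import Mathlib
import Pool.Prelude.Def_F_1001536c
import Pool.Agent.helper38.EGT3

set_option autoImplicit false

namespace Pool.Agent.helper38.EGT

open Finset

/-- Adjacency in the complement of the final graph. -/
def Sys.Adj (P : Sys) : ℕ ⊕ Hub → ℕ ⊕ Hub → Prop
  | Sum.inl _, Sum.inl _ => False
  | Sum.inl a, Sum.inr w => P.Cov w 0 a
  | Sum.inr w, Sum.inl a => P.Cov w 0 a
  | Sum.inr w, Sum.inr w' => P.HAdj w w'

lemma Sys.Adj.symm {P : Sys} {u v : ℕ ⊕ Hub} (h : P.Adj u v) : P.Adj v u := by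
  rcases u with a | w <;> rcases v with b | w'
  · exact h
  · exact h
  · exact h
  · exact Sys.HAdj.symm h

lemma Sys.Adj.irrefl {P : Sys} {u : ℕ ⊕ Hub} (h : P.Adj u u) : False := by
  rcases u with a | w
  · exact h
  · exact Sys.HAdj.irrefl h

/-- The finite set of hubs. -/
noncomputable def Sys.W (P : Sys) : Finset Hub :=
  (Finset.Icc 1 P.L).biUnion (fun l => (range (P.N l)).biUnion (fun κ =>
    ((range (2 ^ l)).image (fun c => Hub.mk l l κ 0 c)) ∪
      (range l).biUnion (fun p => ((range (P.nb p l κ)) ×ˢ (range (2 ^ (l - 1)))).image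
        (fun q => Hub.mk l p κ q.1 q.2))))

lemma Sys.mem_W {P : Sys} {w : Hub} (h : P.IsHub w) : w ∈ P.W := by
  obtain ⟨h1, h2, h3, h4⟩ := h
  unfold Sys.W
  rw [Finset.mem_biUnion]
  refine ⟨w.lev, Finset.mem_Icc.2 ⟨h1, h2⟩, ?_⟩
  rw [Finset.mem_biUnion]
  refine ⟨w.cl, Finset.mem_range.2 h3, ?_⟩
  rw [Finset.mem_union]
  rcases h4 with ⟨h5, h6, h7⟩ | ⟨h5, h6, h7⟩
  · right
    rw [Finset.mem_biUnion]
    refine ⟨w.part, Finset.mem_range.2 h5, ?_⟩
    rw [Finset.mem_image]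
    refine ⟨(w.bk, w.cp), ?_, ?_⟩
    · rw [Finset.mem_product, Finset.mem_range, Finset.mem_range]
      exact ⟨h6, h7⟩
    · rfl
  · left
    rw [Finset.mem_image]
    refine ⟨w.cp, Finset.mem_range.2 h7, ?_⟩
    rcases w with ⟨a, b, c, d, e⟩
    simp only at h5 h6
    subst h5
    subst h6
    rfl

lemma Sys.isHub_of_mem_W {P : Sys} {w : Hub} (h : w ∈ P.W) : P.IsHub w := by
  unfold Sys.W at h
  simp only [Finset.mem_biUnion, Finset.mem_union, Finset.mem_image, Finset.mem_Icc,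
    Finset.mem_range, Finset.mem_product] at h
  obtain ⟨l, ⟨h1, h2⟩, κ, h3, h4 | h4⟩ := h
  · obtain ⟨c, hc, rfl⟩ := h4
    exact ⟨h1, h2, h3, Or.inr ⟨rfl, rfl, hc⟩⟩
  · obtain ⟨p, hp, q, ⟨hq1, hq2⟩, rfl⟩ := h4
    exact ⟨h1, h2, h3, Or.inl ⟨hp, hq1, hq2⟩⟩

lemma Sys.card_W (P : Sys) : P.W.card ≤
    ∑ l ∈ Finset.Icc 1 P.L, (P.N l * 2 ^ l +
      ∑ p ∈ range l, (∑ κ ∈ range (P.N l), P.nb p l κ) * 2 ^ (l - 1)) := by
  unfold Sys.W
  refine Finset.card_biUnion_le.trans (Finset.sum_le_sum (fun l _ => ?_))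
  have h1 : ∀ κ, (((range (2 ^ l)).image (fun c => Hub.mk l l κ 0 c)) ∪
      (range l).biUnion (fun p => ((range (P.nb p l κ)) ×ˢ (range (2 ^ (l - 1)))).image
        (fun q => Hub.mk l p κ q.1 q.2))).card ≤ 2 ^ l + ∑ p ∈ range l, P.nb p l κ * 2 ^ (l - 1) := by
    intro κ
    refine (Finset.card_union_le _ _).trans (Nat.add_le_add ?_ ?_)
    · exact Finset.card_image_le.trans (by simp)
    · refine Finset.card_biUnion_le.trans (Finset.sum_le_sum (fun p _ => ?_))
      exact Finset.card_image_le.trans (by simp [Finset.card_product])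
  refine Finset.card_biUnion_le.trans ((Finset.sum_le_sum (fun κ _ => h1 κ)).trans ?_)
  rw [Finset.sum_add_distrib, Finset.sum_comm]
  apply Nat.add_le_add
  · simp
  · apply Finset.sum_le_sum
    intro p _
    rw [Finset.sum_mul]

section graph

variable {P : Sys} {n : ℕ} (π : Fin n → ℕ ⊕ Hub)

/-- The final graph. -/
def Gr (P : Sys) (π : Fin n → ℕ ⊕ Hub) : SimpleGraph (Fin n) where
  Adj i j := i ≠ j ∧ ¬ P.Adj (π i) (π j)
  symm := ⟨fun _ _ h => ⟨h.1.symm, fun h' => h.2 h'.symm⟩⟩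
  loopless := ⟨fun _ h => h.1 rfl⟩

variable {π}

lemma clique_card (hP : P.Good) {D : ℕ → ℕ}
    (hD : ∀ l, 1 ≤ l → l ≤ P.L → ∀ κ β,
      ((range (P.N 0)).filter (fun x => κ ∈ P.Γ 0 l x ∧ P.bl 0 l κ x = β)).card ≤ D l)
    (hπ1 : ∀ i, (∃ a < P.N 0, π i = Sum.inl a) ∨ ∃ w, P.IsHub w ∧ π i = Sum.inr w)
    (hπ2 : ∀ a < P.N 0, ∃ i, π i = Sum.inl a)
    {K : Finset (Fin n)} (hK : Maximal (fun T : Finset (Fin n) => (Gr P π).IsClique (T : Set (Fin n))) K) :
    P.N 0 ≤ K.card + ∑ l ∈ Finset.Icc 1 P.L, P.N l * D l := by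
  classical
  rcases Nat.eq_zero_or_pos (P.N 0) with hN0 | hN0
  · rw [hN0]
    exact Nat.zero_le _
  have : Nonempty (Fin n) := ⟨(hπ2 0 hN0).choose⟩
  let CA : Finset ℕ := (range (P.N 0)).filter (fun a => ∃ i ∈ K, P.Adj (Sum.inl a) (π i))
  have hβ : ∀ l κ, ∃ β, ∀ i ∈ K, ∀ w, π i = Sum.inr w → w.lev = l → w.cl = κ → w.bk = β := by
    intro l κ
    by_cases h : ∃ i ∈ K, ∃ w, π i = Sum.inr w ∧ w.lev = l ∧ w.cl = κ
    · obtain ⟨i, hi, w, hw, hl, hκ⟩ := h
      refine ⟨w.bk, ?_⟩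
      intro i' hi' w' hw' hl' hκ'
      by_cases hww : w = w'
      · rw [hww]
      · exfalso
        have hii : i ≠ i' := by
          rintro rfl
          rw [hw] at hw'
          exact hww (Sum.inr_injective hw')
        have hadj := hK.1 (Finset.mem_coe.2 hi) (Finset.mem_coe.2 hi') hii
        apply hadj.2
        rw [hw, hw']
        exact Or.inl ⟨hww, by rw [hl, hl'], by rw [hκ, hκ']⟩
    · refine ⟨0, ?_⟩
      intro i hi w hw hl hκ
      exact absurd ⟨i, hi, w, hw, hl, hκ⟩ h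
  choose β hβ using hβ
  have hCA : CA.card ≤ ∑ l ∈ Finset.Icc 1 P.L, P.N l * D l := by
    have hsub : CA ⊆ (Finset.Icc 1 P.L).biUnion (fun l => (range (P.N l)).biUnion (fun κ =>
        (range (P.N 0)).filter (fun x => κ ∈ P.Γ 0 l x ∧ P.bl 0 l κ x = β l κ))) := by
      intro a ha
      rw [Finset.mem_filter] at ha
      obtain ⟨ha1, i, hi, hadj⟩ := ha
      rcases hπ1 i with ⟨b, _, hb⟩ | ⟨w, hw, hw'⟩
      · rw [hb] at hadj
        exact absurd hadj (by simp [Sys.Adj])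
      · rw [hw'] at hadj
        have hc : P.Cov w 0 a := hadj
        rw [Finset.mem_biUnion]
        refine ⟨w.lev, Finset.mem_Icc.2 ⟨hw.1, hw.2.1⟩, ?_⟩
        rw [Finset.mem_biUnion]
        refine ⟨w.cl, Finset.mem_range.2 hw.2.2.1, ?_⟩
        rw [Finset.mem_filter]
        refine ⟨ha1, hc.2.2.2.1, ?_⟩
        rw [← hβ w.lev w.cl i hi w hw' rfl rfl]
        exact hc.2.2.2.2
    refine (Finset.card_le_card hsub).trans (Finset.card_biUnion_le.trans ?_)
    apply Finset.sum_le_sum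
    intro l hl
    rw [Finset.mem_Icc] at hl
    refine Finset.card_biUnion_le.trans ?_
    calc ∑ κ ∈ range (P.N l), ((range (P.N 0)).filter
          (fun x => κ ∈ P.Γ 0 l x ∧ P.bl 0 l κ x = β l κ)).card
        ≤ ∑ κ ∈ range (P.N l), D l := Finset.sum_le_sum (fun κ _ => hD l hl.1 hl.2 _ _)
      _ = P.N l * D l := by simp
  have hfree : (range (P.N 0) \ CA).card ≤ K.card := by
    choose! f hf using hπ2
    apply Finset.card_le_card_of_injOn f
    · intro a ha
      have ha' : a ∈ range (P.N 0) \ CA := ha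
      rw [Finset.mem_sdiff, Finset.mem_range] at ha'
      obtain ⟨ha1, ha2⟩ := ha'
      have hfa := hf a ha1
      have hcl : (Gr P π).IsClique ((insert (f a) K : Finset (Fin n)) : Set (Fin n)) := by
        rw [Finset.coe_insert]
        apply SimpleGraph.IsClique.insert hK.1
        intro j hj hne
        refine ⟨hne, ?_⟩
        intro hadj
        rw [hfa] at hadj
        exact ha2 (Finset.mem_filter.2 ⟨Finset.mem_range.2 ha1, j, Finset.mem_coe.1 hj, hadj⟩)
      have := hK.2 hcl (Finset.subset_insert _ _)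
      exact this (Finset.mem_insert_self _ _)
    · intro a ha b hb hab
      have ha' : a ∈ range (P.N 0) \ CA := ha
      have hb' : b ∈ range (P.N 0) \ CA := hb
      rw [Finset.mem_sdiff, Finset.mem_range] at ha' hb'
      have h1 := hf a ha'.1
      have h2 := hf b hb'.1
      rw [hab] at h1
      rw [h1] at h2
      exact Sum.inl_injective h2
  have h3 : (range (P.N 0)).card ≤ (range (P.N 0) \ CA).card + CA.card := by
    have := Finset.card_sdiff_add_card (range (P.N 0)) CA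
    have h4 : (range (P.N 0)).card ≤ (range (P.N 0) ∪ CA).card :=
      Finset.card_le_card Finset.subset_union_left
    omega
  rw [Finset.card_range] at h3
  omega

lemma exists_avoiding (hP : P.Good)
    (hπ1 : ∀ i, (∃ a < P.N 0, π i = Sum.inl a) ∨ ∃ w, P.IsHub w ∧ π i = Sum.inr w)
    (hπ3 : ∀ w, P.IsHub w → ∃ i, π i = Sum.inr w)
    (T : Finset (Fin n)) (hT : 6 * P.L * T.card ≤ 2 ^ P.L) :
    ∃ K : Finset (Fin n), Maximal (fun T : Finset (Fin n) => (Gr P π).IsClique (T : Set (Fin n))) K ∧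
      ∀ i ∈ K, i ∉ T := by
  classical
  let TW : Finset Hub := P.W.filter (fun w => ∃ i ∈ T, π i = Sum.inr w)
  let TA : Finset ℕ := (range (P.N 0)).filter (fun a => ∃ i ∈ T, π i = Sum.inl a)
  have hTW : TW.card ≤ T.card := by
    refine le_trans ?_ (Finset.card_image_le (s := T) (f := π))
    apply Finset.card_le_card_of_injOn Sum.inr
    · intro w hw
      have hw' : w ∈ TW := hw
      obtain ⟨i, hi, hiw⟩ := (Finset.mem_filter.1 hw').2
      exact Finset.mem_coe.2 (Finset.mem_image.2 ⟨i, hi, hiw⟩)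
    · exact Sum.inr_injective.injOn
  have hTA : TA.card ≤ T.card := by
    refine le_trans ?_ (Finset.card_image_le (s := T) (f := π))
    apply Finset.card_le_card_of_injOn Sum.inl
    · intro w hw
      have hw' : w ∈ TA := hw
      obtain ⟨i, hi, hiw⟩ := (Finset.mem_filter.1 hw').2
      exact Finset.mem_coe.2 (Finset.mem_image.2 ⟨i, hi, hiw⟩)
    · exact Sum.inl_injective.injOn
  obtain ⟨J, hJ1, hJ2, hJ3, hJ4⟩ := dominating hP (T := TW)
    ((Nat.mul_le_mul_left _ hTW).trans hT) (TA := TA) (Finset.filter_subset _ _)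
    ((Nat.mul_le_mul_left _ hTA).trans hT)
  let Jn : Finset (Fin n) := univ.filter (fun i => ∃ w ∈ J, π i = Sum.inr w)
  have hJn : (Gr P π).IsClique (Jn : Set (Fin n)) := by
    intro i hi j hj hij
    obtain ⟨w, hw, hiw⟩ := (Finset.mem_filter.1 (Finset.mem_coe.1 hi)).2
    obtain ⟨w', hw', hjw⟩ := (Finset.mem_filter.1 (Finset.mem_coe.1 hj)).2
    refine ⟨hij, ?_⟩
    rw [hiw, hjw]
    exact hJ2 w hw w' hw'
  obtain ⟨K, hJK, hK⟩ := Finite.exists_le_maximal
    (p := fun T : Finset (Fin n) => (Gr P π).IsClique (T : Set (Fin n))) hJn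
  refine ⟨K, hK, ?_⟩
  intro i hi hiT
  have key : ∀ w ∈ J, ¬ P.Adj (π i) (Sum.inr w) := by
    intro w hw hadj
    obtain ⟨j, hj⟩ := hπ3 w (hJ1 w hw).1
    have hjK : j ∈ K := hJK (Finset.mem_filter.2 ⟨Finset.mem_univ _, w, hw, hj⟩)
    have hij : i ≠ j := by
      rintro rfl
      rw [hj] at hadj
      exact Sys.Adj.irrefl hadj
    have := hK.1 (Finset.mem_coe.2 hi) (Finset.mem_coe.2 hjK) hij
    apply this.2
    rw [hj]
    exact hadj
  rcases hπ1 i with ⟨a, ha, hia⟩ | ⟨w, hw, hiw⟩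
  · have haT : a ∈ TA := Finset.mem_filter.2 ⟨Finset.mem_range.2 ha, i, hiT, hia⟩
    obtain ⟨w, hwJ, hcov⟩ := hJ4 a haT
    apply key w hwJ
    rw [hia]
    exact hcov
  · have hwT : w ∈ TW := Finset.mem_filter.2 ⟨Sys.mem_W hw, i, hiT, hiw⟩
    obtain ⟨w', hw'J, hadj⟩ := hJ3 w hwT hw
    apply key w' hw'J
    rw [hiw]
    exact hadj

end graph

/-- From a good system to the graph. -/
theorem graph_of_sys {P : Sys} (hP : P.Good) {D : ℕ → ℕ}
    (hD : ∀ l, 1 ≤ l → l ≤ P.L → ∀ κ β,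
      ((range (P.N 0)).filter (fun x => κ ∈ P.Γ 0 l x ∧ P.bl 0 l κ x = β)).card ≤ D l)
    {n k : ℕ} (hn : P.N 0 + P.W.card ≤ n) (hk2 : 2 ≤ k)
    (hk : k + ∑ l ∈ Finset.Icc 1 P.L, P.N l * D l ≤ P.N 0) {t : ℕ} (ht : 6 * P.L * t ≤ 2 ^ P.L) :
    ∃ G : SimpleGraph (Fin n), Ndcfe74d8.AllMaximalCliquesAtLeast G (k : ℝ) ∧
      t < G.cliqueTransversalNumber := by
  classical
  let VS : Finset (ℕ ⊕ Hub) := (range (P.N 0)).image Sum.inl ∪ P.W.image Sum.inr
  have hVSc : VS.card ≤ n := by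
    refine le_trans (Finset.card_union_le _ _) (le_trans (Nat.add_le_add Finset.card_image_le
      Finset.card_image_le) ?_)
    rw [Finset.card_range]
    exact hn
  have hN0 : 0 < P.N 0 := by omega
  -- a surjection onto VS
  obtain ⟨π, hπ, hπs⟩ : ∃ π : Fin n → ℕ ⊕ Hub, (∀ i, π i ∈ VS) ∧ ∀ v ∈ VS, ∃ i, π i = v := by
    have hne : VS.Nonempty := ⟨Sum.inl 0, Finset.mem_union_left _
      (Finset.mem_image_of_mem _ (Finset.mem_range.2 hN0))⟩
    obtain ⟨v₀, hv₀⟩ := hne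
    have hcard : Fintype.card VS ≤ Fintype.card (Fin n) := by
      rw [Fintype.card_coe, Fintype.card_fin]; exact hVSc
    obtain ⟨f⟩ := Function.Embedding.nonempty_of_card_le hcard
    refine ⟨fun i => if h : ∃ v, f v = i then (h.choose : ℕ ⊕ Hub) else v₀, ?_, ?_⟩
    · intro i
      by_cases h : ∃ v, f v = i
      · simp only [h, dif_pos]
        exact h.choose.2
      · simp only [h, dif_neg, not_false_eq_true]
        exact hv₀
    · intro v hv
      refine ⟨f ⟨v, hv⟩, ?_⟩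
      have h : ∃ v', f v' = f ⟨v, hv⟩ := ⟨_, rfl⟩
      simp only [h, dif_pos]
      have := f.injective h.choose_spec
      rw [this]
  have hπ1 : ∀ i, (∃ a < P.N 0, π i = Sum.inl a) ∨ ∃ w, P.IsHub w ∧ π i = Sum.inr w := by
    intro i
    rcases Finset.mem_union.1 (hπ i) with h | h
    · left
      obtain ⟨a, ha, hai⟩ := Finset.mem_image.1 h
      exact ⟨a, Finset.mem_range.1 ha, hai.symm⟩
    · right
      obtain ⟨w, hw, hwi⟩ := Finset.mem_image.1 h
      exact ⟨w, Sys.isHub_of_mem_W hw, hwi.symm⟩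
  have hπ2 : ∀ a < P.N 0, ∃ i, π i = Sum.inl a := fun a ha => hπs _
    (Finset.mem_union_left _ (Finset.mem_image_of_mem _ (Finset.mem_range.2 ha)))
  have hπ3 : ∀ w, P.IsHub w → ∃ i, π i = Sum.inr w := fun w hw => hπs _
    (Finset.mem_union_right _ (Finset.mem_image_of_mem _ (Sys.mem_W hw)))
  have hsize : ∀ K : Finset (Fin n), Maximal (fun T : Finset (Fin n) =>
      (Gr P π).IsClique (T : Set (Fin n))) K → k ≤ K.card := by
    intro K hK
    have := clique_card hP hD hπ1 hπ2 hK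
    omega
  refine ⟨Gr P π, ?_, ?_⟩
  · rintro s ⟨K, hK, rfl⟩
    exact_mod_cast hsize K hK
  · have hne : {k | ∃ T : Finset (Fin n), (Gr P π).IsCliqueTransversal T ∧ T.card = k}.Nonempty := by
      refine ⟨_, univ, ?_, rfl⟩
      intro s hs
      have : s.Nonempty := by
        rw [← Finset.card_pos]
        have := hs.2
        omega
      obtain ⟨v, hv⟩ := this
      exact ⟨v, hv, Finset.mem_univ _⟩
    obtain ⟨T, hT, hTc⟩ := Nat.sInf_mem hne
    have hTc' : T.card = (Gr P π).cliqueTransversalNumber := hTc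
    rw [← hTc']
    by_contra hlt
    push Not at hlt
    obtain ⟨K, hK, hKT⟩ := exists_avoiding hP hπ1 hπ3 T
      ((Nat.mul_le_mul_left _ hlt).trans ht)
    obtain ⟨v, hv, hvT⟩ := hT K ⟨hK, hk2.trans (hsize K hK)⟩
    exact hKT v hv hvT

end Pool.Agent.helper38.EGT
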