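import Mathlib
import Pool.Agent.helper38.EGT4

set_option autoImplicit false

namespace Pool.Agent.helper38.EGT

open Finset

/-- Sizes of the parts. -/
def NN (L N0 : ℕ) (p : ℕ) : ℕ := if p = 0 then N0 else 7776 * L * 2 ^ (L - p)

/-- Block sizes. -/
def DD (F : ℕ) (p l : ℕ) : ℕ := if p = 0 then F * 2 ^ l else 2 ^ (l - p)

lemma NN_pos {L N0 : ℕ} {p : ℕ} (hp : 1 ≤ p) : NN L N0 p = 7776 * L * 2 ^ (L - p) := by
  unfold NN
  rw [if_neg (by omega)]

lemma NN_le {L N0 : ℕ} (hL : 1 ≤ L) (hN0 : N0 ≤ 2 ^ (24 * L - 1)) (p : ℕ) :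
    NN L N0 p ≤ 2 ^ (4 * (6 * L) - 1) := by
  have e : 4 * (6 * L) - 1 = 24 * L - 1 := by omega
  rw [e]
  unfold NN
  split_ifs with hp
  · exact hN0
  · have h1 : L < 2 ^ L := Nat.lt_two_pow_self
    have h2 : 2 ^ (L - p) ≤ 2 ^ (L - 1) := Nat.pow_le_pow_right (by norm_num) (by omega)
    have h3 : 7776 ≤ 2 ^ 13 := by norm_num
    calc 7776 * L * 2 ^ (L - p) ≤ 2 ^ 13 * 2 ^ L * 2 ^ (L - 1) :=
          Nat.mul_le_mul (Nat.mul_le_mul h3 h1.le) h2
      _ = 2 ^ (13 + L + (L - 1)) := by rw [pow_add, pow_add]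
      _ ≤ 2 ^ (24 * L - 1) := Nat.pow_le_pow_right (by norm_num) (by omega)

theorem exists_sys {L N0 F : ℕ} (hL : 1 ≤ L) (hF : 1 ≤ F) (hN0 : N0 ≤ 2 ^ (24 * L - 1)) :
    ∃ P : Sys, P.Good ∧ P.L = L ∧ (∀ p, P.N p = NN L N0 p) ∧
      (∀ l, 1 ≤ l → l ≤ P.L → ∀ κ β,
        ((range (P.N 0)).filter (fun x => κ ∈ P.Γ 0 l x ∧ P.bl 0 l κ x = β)).card ≤ F * 2 ^ l) ∧
      (∀ p l, p < l → l ≤ L → ∑ κ ∈ range (P.N l), P.nb p l κ ≤
        4 * (6 * L) * NN L N0 p / DD F p l + NN L N0 l) := by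
  have hex : ∀ p l, ∃ q : (ℕ → Finset ℕ) × (ℕ → ℕ → ℕ) × (ℕ → ℕ), p < l → l ≤ L →
      (∀ x < NN L N0 p, (q.1 x).card ≤ 4 * (6 * L)) ∧
      (∀ x < NN L N0 p, ∀ κ ∈ q.1 x, κ < NN L N0 l) ∧
      (∀ S ⊆ range (NN L N0 p), S.card ≤ 2 ^ (L - l) →
        3 * (6 * L) * S.card ≤ (S.biUnion q.1).card) ∧
      (∀ x < NN L N0 p, ∀ κ ∈ q.1 x, q.2.1 κ x < q.2.2 κ) ∧
      (∀ κ β, ((range (NN L N0 p)).filter (fun x => κ ∈ q.1 x ∧ q.2.1 κ x = β)).card
        ≤ DD F p l) ∧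
      (∑ κ ∈ range (NN L N0 l), q.2.2 κ ≤ 4 * (6 * L) * NN L N0 p / DD F p l + NN L N0 l) := by
    intro p l
    by_cases h : p < l ∧ l ≤ L
    · have hM : NN L N0 l = 7776 * L * 2 ^ (L - l) := NN_pos (by omega)
      have hD : 1 ≤ DD F p l := by
        unfold DD
        split_ifs
        · exact Nat.succ_le_of_lt (Nat.mul_pos (by omega) (by positivity))
        · exact Nat.one_le_two_pow
      obtain ⟨Γ, bl, nb, h1, h2, h3, h4, h5, h6⟩ := exists_level (NN L N0 p) (6 * L) (2 ^ (L - l))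
        (NN L N0 l) (DD F p l) (by omega) (by rw [hM]; exact le_of_eq (by ring))
        (NN_le hL hN0 p) (by rw [hM]; positivity) hD
      exact ⟨(Γ, bl, nb), fun _ _ => ⟨h1, h2, h3, h4, h5, h6⟩⟩
    · exact ⟨(fun _ => ∅, fun _ _ => 0, fun _ => 0), fun h1 h2 => absurd ⟨h1, h2⟩ h⟩
  choose q hq using hex
  refine ⟨⟨L, NN L N0, fun p l => (q p l).1, fun p l => (q p l).2.1, fun p l => (q p l).2.2⟩,
    ⟨hL, ?_, ?_, ?_, ?_, ?_⟩, rfl, fun _ => rfl, ?_, ?_⟩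
  · intro p l h1 h2
    exact (hq p l h1 h2).1
  · intro p l h1 h2
    exact (hq p l h1 h2).2.1
  · intro p l h1 h2
    exact (hq p l h1 h2).2.2.1
  · intro p l h1 h2
    exact (hq p l h1 h2).2.2.2.1
  · intro p l h0 h1 h2 κ β
    have := (hq p l h1 h2).2.2.2.2.1 κ β
    have hDD : DD F p l = 2 ^ (l - p) := by
      unfold DD
      rw [if_neg (by omega)]
    rw [hDD] at this
    exact this
  · intro l h1 h2 κ β
    have := (hq 0 l h1 h2).2.2.2.2.1 κ β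
    have hDD : DD F 0 l = F * 2 ^ l := by
      unfold DD
      rw [if_pos rfl]
    rw [hDD] at this
    exact this
  · intro p l h1 h2
    exact (hq p l h1 h2).2.2.2.2.2

/-- The bound for the number of hubs at one level. -/
lemma level_bound {L N0 g l : ℕ} (hL : 1 ≤ L) (hg : 1 ≤ g) (hl1 : 1 ≤ l) (hl : l ≤ L)
    (S : ℕ → ℕ) (hS : ∀ p < l, S p ≤ 4 * (6 * L) * NN L N0 p / DD (24 * g * L ^ 2) p l + NN L N0 l) :
    2 * g * (NN L N0 l * 2 ^ l + ∑ p ∈ range l, S p * 2 ^ (l - 1)) * L ≤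
      N0 + g * (217728 * L ^ 4 * 2 ^ L) := by
  have hpow : 2 ^ (l - 1) * 2 = 2 ^ l := by
    rw [← pow_succ]; congr 1; omega
  have hpowL : 2 ^ (L - l) * 2 ^ l = 2 ^ L := by
    rw [← pow_add]; congr 1; omega
  have hNl : NN L N0 l * 2 ^ l = 7776 * L * 2 ^ L := by
    rw [NN_pos hl1, mul_assoc, hpowL]
  -- part 0
  have h0 : g * L * (S 0 * 2 ^ l) ≤ N0 + g * L * (7776 * L * 2 ^ L) := by
    have h1 := hS 0 hl1
    have hDD : DD (24 * g * L ^ 2) 0 l = 24 * g * L ^ 2 * 2 ^ l := by unfold DD; rw [if_pos rfl]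
    have hN : NN L N0 0 = N0 := by unfold NN; rw [if_pos rfl]
    rw [hDD, hN] at h1
    have h2 : (4 * (6 * L) * N0 / (24 * g * L ^ 2 * 2 ^ l)) * (24 * g * L ^ 2 * 2 ^ l) ≤
      4 * (6 * L) * N0 := Nat.div_mul_le_self _ _
    have h3 : g * L * ((4 * (6 * L) * N0 / (24 * g * L ^ 2 * 2 ^ l)) * 2 ^ l) ≤ N0 := by
      have h4 : 24 * L * (g * L * ((4 * (6 * L) * N0 / (24 * g * L ^ 2 * 2 ^ l)) * 2 ^ l)) ≤
          24 * L * N0 := by
        calc _ = (4 * (6 * L) * N0 / (24 * g * L ^ 2 * 2 ^ l)) * (24 * g * L ^ 2 * 2 ^ l) := by ring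
          _ ≤ 4 * (6 * L) * N0 := h2
          _ = 24 * L * N0 := by ring
      exact Nat.le_of_mul_le_mul_left h4 (by omega)
    calc g * L * (S 0 * 2 ^ l)
        ≤ g * L * ((4 * (6 * L) * N0 / (24 * g * L ^ 2 * 2 ^ l) + NN L N0 l) * 2 ^ l) := by gcongr
      _ = g * L * ((4 * (6 * L) * N0 / (24 * g * L ^ 2 * 2 ^ l)) * 2 ^ l) +
          g * L * (NN L N0 l * 2 ^ l) := by ring
      _ ≤ N0 + g * L * (7776 * L * 2 ^ L) := by
          rw [hNl]
          exact Nat.add_le_add_right h3 _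
  -- the other parts
  have hp : ∀ p ∈ Finset.Ico 1 l, S p * 2 ^ l ≤ 194400 * L ^ 2 * 2 ^ L := by
    intro p hp
    rw [Finset.mem_Ico] at hp
    have h1 := hS p hp.2
    have hDD : DD (24 * g * L ^ 2) p l = 2 ^ (l - p) := by unfold DD; rw [if_neg (by omega)]
    have hN : NN L N0 p = 7776 * L * 2 ^ (L - p) := NN_pos hp.1
    rw [hDD, hN] at h1
    have h2 : 2 ^ (L - p) = 2 ^ (L - l) * 2 ^ (l - p) := by
      rw [← pow_add]; congr 1; omega
    have h3 : 4 * (6 * L) * (7776 * L * 2 ^ (L - p)) / 2 ^ (l - p) =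
        4 * (6 * L) * (7776 * L * 2 ^ (L - l)) := by
      rw [h2]
      have : 4 * (6 * L) * (7776 * L * (2 ^ (L - l) * 2 ^ (l - p))) =
        (4 * (6 * L) * (7776 * L * 2 ^ (L - l))) * 2 ^ (l - p) := by ring
      rw [this]
      exact Nat.mul_div_cancel _ (by positivity)
    rw [h3] at h1
    calc S p * 2 ^ l ≤ (4 * (6 * L) * (7776 * L * 2 ^ (L - l)) + NN L N0 l) * 2 ^ l := by gcongr
      _ = 4 * (6 * L) * (7776 * L * (2 ^ (L - l) * 2 ^ l)) + NN L N0 l * 2 ^ l := by ring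
      _ = 186624 * L ^ 2 * 2 ^ L + 7776 * L * 2 ^ L := by rw [hpowL, hNl]; ring
      _ ≤ 186624 * L ^ 2 * 2 ^ L + 7776 * L ^ 2 * 2 ^ L := by
          have : L ≤ L ^ 2 := by nlinarith
          gcongr
      _ = 194400 * L ^ 2 * 2 ^ L := by ring
  have hsum : ∑ p ∈ range l, S p * 2 ^ l = S 0 * 2 ^ l + ∑ p ∈ Finset.Ico 1 l, S p * 2 ^ l := by
    rw [Finset.range_eq_Ico, Finset.sum_eq_sum_Ico_succ_bot (by omega)]
  have hsum2 : ∑ p ∈ Finset.Ico 1 l, S p * 2 ^ l ≤ (L - 1) * (194400 * L ^ 2 * 2 ^ L) := by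
    calc ∑ p ∈ Finset.Ico 1 l, S p * 2 ^ l ≤ ∑ p ∈ Finset.Ico 1 l, 194400 * L ^ 2 * 2 ^ L :=
          Finset.sum_le_sum hp
      _ = (l - 1) * (194400 * L ^ 2 * 2 ^ L) := by simp
      _ ≤ _ := Nat.mul_le_mul_right _ (by omega)
  have hmain : 2 * g * (NN L N0 l * 2 ^ l + ∑ p ∈ range l, S p * 2 ^ (l - 1)) * L =
      2 * g * L * (7776 * L * 2 ^ L) + g * L * (S 0 * 2 ^ l) +
        g * L * ∑ p ∈ Finset.Ico 1 l, S p * 2 ^ l := by
    have h1 : (∑ p ∈ range l, S p * 2 ^ (l - 1)) * 2 = ∑ p ∈ range l, S p * 2 ^ l := by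
      rw [Finset.sum_mul]
      apply Finset.sum_congr rfl
      intro p _
      rw [mul_assoc, hpow]
    calc _ = 2 * g * L * (NN L N0 l * 2 ^ l) + g * L * ((∑ p ∈ range l, S p * 2 ^ (l - 1)) * 2) := by
          ring
      _ = _ := by rw [h1, hsum, hNl]; ring
  rw [hmain]
  obtain ⟨M, rfl⟩ : ∃ M, L = M + 1 := ⟨L - 1, by omega⟩
  have h5 : g * (M + 1) * ∑ p ∈ Finset.Ico 1 l, S p * 2 ^ l ≤
      g * (M + 1) * (M * (194400 * (M + 1) ^ 2 * 2 ^ (M + 1))) := by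
    have : M + 1 - 1 = M := by omega
    rw [this] at hsum2
    gcongr
  have h6 : 2 * g * (M + 1) * (7776 * (M + 1) * 2 ^ (M + 1)) +
      g * (M + 1) * (7776 * (M + 1) * 2 ^ (M + 1)) +
      g * (M + 1) * (M * (194400 * (M + 1) ^ 2 * 2 ^ (M + 1))) ≤
      g * (217728 * (M + 1) ^ 4 * 2 ^ (M + 1)) := by
    have h7 : 3 * 7776 * (M + 1) ^ 2 + 194400 * M * (M + 1) ^ 3 ≤ 217728 * (M + 1) ^ 4 := by
      have : (M + 1) ^ 2 ≤ (M + 1) ^ 4 := Nat.pow_le_pow_right (by omega) (by norm_num)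
      have h8 : M * (M + 1) ^ 3 ≤ (M + 1) ^ 4 := by
        rw [pow_succ (M + 1) 3, mul_comm]
        exact Nat.mul_le_mul_left _ (by omega)
      nlinarith
    calc _ = g * 2 ^ (M + 1) * (3 * 7776 * (M + 1) ^ 2 + 194400 * M * (M + 1) ^ 3) := by ring
      _ ≤ g * 2 ^ (M + 1) * (217728 * (M + 1) ^ 4) := Nat.mul_le_mul_left _ h7
      _ = _ := by ring
  omega

theorem graph_exists {L N0 g n k t : ℕ} (hL : 1 ≤ L) (hg : 1 ≤ g)
    (hN1 : 400000 * g ^ 2 * L ^ 4 * 2 ^ L ≤ N0) (hN2 : N0 ≤ 2 ^ (24 * L - 1))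
    (hn : N0 + N0 / g ≤ n) (hk2 : 2 ≤ k) (hk : k + N0 / g ≤ N0) (ht : 6 * L * t ≤ 2 ^ L) :
    ∃ G : SimpleGraph (Fin n), Ndcfe74d8.AllMaximalCliquesAtLeast G (k : ℝ) ∧
      t < G.cliqueTransversalNumber := by
  have hF : 1 ≤ 24 * g * L ^ 2 := Nat.succ_le_of_lt (by positivity)
  obtain ⟨P, hP, hPL, hPN, hPD, hPnb⟩ := exists_sys (F := 24 * g * L ^ 2) hL hF hN2
  have hN0' : P.N 0 = N0 := by
    rw [hPN]; unfold NN; rw [if_pos rfl]
  have hpos : 0 < 2 ^ L := by positivity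
  apply graph_of_sys hP (D := fun l => 24 * g * L ^ 2 * 2 ^ l) hPD
  · -- number of vertices
    have h1 := P.card_W
    rw [hPL] at h1
    have h2 : 2 * g * L * P.W.card ≤ 2 * L * N0 := by
      calc 2 * g * L * P.W.card ≤ 2 * g * L * ∑ l ∈ Finset.Icc 1 L, (P.N l * 2 ^ l +
            ∑ p ∈ range l, (∑ κ ∈ range (P.N l), P.nb p l κ) * 2 ^ (l - 1)) := by gcongr
        _ = ∑ l ∈ Finset.Icc 1 L, 2 * g * (P.N l * 2 ^ l +
            ∑ p ∈ range l, (∑ κ ∈ range (P.N l), P.nb p l κ) * 2 ^ (l - 1)) * L := by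
            rw [Finset.mul_sum]
            apply Finset.sum_congr rfl
            intro l _
            ring
        _ ≤ ∑ l ∈ Finset.Icc 1 L, (N0 + g * (217728 * L ^ 4 * 2 ^ L)) := by
            apply Finset.sum_le_sum
            intro l hl
            rw [Finset.mem_Icc] at hl
            rw [hPN l]
            exact level_bound hL hg hl.1 hl.2 (fun p => ∑ κ ∈ range (NN L N0 l), P.nb p l κ)
              (fun p hp => by
                have := hPnb p l hp hl.2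
                rw [hPN l] at this
                exact this)
        _ = L * (N0 + g * (217728 * L ^ 4 * 2 ^ L)) := by simp
        _ ≤ L * (N0 + N0) := by
            have h3 : g * (217728 * L ^ 4 * 2 ^ L) ≤ N0 := by
              refine le_trans ?_ hN1
              have h4 : g ≤ g ^ 2 := by nlinarith
              calc g * (217728 * L ^ 4 * 2 ^ L) ≤ g ^ 2 * (400000 * L ^ 4 * 2 ^ L) := by
                    gcongr; norm_num
                _ = 400000 * g ^ 2 * L ^ 4 * 2 ^ L := by ring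
            gcongr
        _ = 2 * L * N0 := by ring
    have h3 : P.W.card ≤ N0 / g := by
      rw [Nat.le_div_iff_mul_le (by omega)]
      have h4 : 2 * L * (P.W.card * g) ≤ 2 * L * N0 := by
        calc 2 * L * (P.W.card * g) = 2 * g * L * P.W.card := by ring
          _ ≤ 2 * L * N0 := h2
      exact Nat.le_of_mul_le_mul_left h4 (by omega)
    rw [hN0']
    omega
  · exact hk2
  · rw [hPL, hN0']
    have h1 : ∑ l ∈ Finset.Icc 1 L, P.N l * (24 * g * L ^ 2 * 2 ^ l) ≤ N0 / g := by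
      have h2 : ∀ l ∈ Finset.Icc 1 L, P.N l * (24 * g * L ^ 2 * 2 ^ l) = 186624 * g * L ^ 3 * 2 ^ L := by
        intro l hl
        rw [Finset.mem_Icc] at hl
        rw [hPN, NN_pos hl.1]
        have : 2 ^ (L - l) * 2 ^ l = 2 ^ L := by rw [← pow_add]; congr 1; omega
        calc _ = 186624 * g * L ^ 3 * (2 ^ (L - l) * 2 ^ l) := by ring
          _ = _ := by rw [this]
      rw [Finset.sum_congr rfl h2]
      simp only [Finset.sum_const, Nat.card_Icc, smul_eq_mul]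
      rw [Nat.le_div_iff_mul_le (by omega)]
      refine le_trans ?_ hN1
      have h3 : L + 1 - 1 = L := by omega
      rw [h3]
      calc L * (186624 * g * L ^ 3 * 2 ^ L) * g = 186624 * g ^ 2 * L ^ 4 * 2 ^ L := by ring
        _ ≤ 400000 * g ^ 2 * L ^ 4 * 2 ^ L := by gcongr; norm_num
    exact (Nat.add_le_add_left h1 _).trans hk
  · rw [hPL]
    exact ht

end Pool.Agent.helper38.EGT
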