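import Mathlib
import Pool.Agent.helper38.EGT5

set_option autoImplicit false

namespace Pool.Agent.helper38.EGT

open Finset Filter Topology

lemma eventually_poly_le (C : ℕ) : ∀ᶠ n : ℕ in atTop, C * (Nat.log 2 n) ^ 8 ≤ n / 2 := by
  have h1 : Tendsto (fun m : ℕ => (m : ℝ) ^ 8 / (2 : ℝ) ^ m) atTop (𝓝 0) :=
    tendsto_pow_const_div_const_pow_of_one_lt 8 (by norm_num)
  have h2 : ∀ᶠ m : ℕ in atTop, (m : ℝ) ^ 8 / (2 : ℝ) ^ m < 1 / (2 * (C + 1)) :=
    (tendsto_order.1 h1).2 _ (by positivity)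
  obtain ⟨m₀, hm₀⟩ := eventually_atTop.1 h2
  filter_upwards [eventually_ge_atTop (2 ^ m₀)] with n hn
  have hn0 : n ≠ 0 := by
    have : 0 < 2 ^ m₀ := by positivity
    omega
  have hlog : m₀ ≤ Nat.log 2 n := (Nat.le_log_iff_pow_le (by norm_num) hn0).2 hn
  have h3 := hm₀ _ hlog
  rw [div_lt_div_iff₀ (by positivity) (by positivity)] at h3
  have h4 : (2 : ℝ) ^ (Nat.log 2 n) ≤ n := by exact_mod_cast Nat.pow_log_le_self 2 hn0
  rw [Nat.le_div_iff_mul_le (by norm_num)]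
  have h5 : ((C * (Nat.log 2 n) ^ 8 * 2 : ℕ) : ℝ) ≤ n := by
    push_cast
    have h6 : (0 : ℝ) ≤ ((Nat.log 2 n : ℕ) : ℝ) ^ 8 := by positivity
    nlinarith
  exact_mod_cast h5

theorem main (c : ℝ) (hc : c < 1) : ∃ a : ℝ, 0 < a ∧ ∀ᶠ n : ℕ in atTop,
    ∃ G : SimpleGraph (Fin n), Ndcfe74d8.AllMaximalCliquesAtLeast G (c * n) ∧
      a * n / (Real.log n) ^ 5 ≤ (G.cliqueTransversalNumber : ℝ) := by
  -- choose g
  obtain ⟨g, hg'⟩ : ∃ g : ℕ, max 2 (4 / (1 - c)) < g := exists_nat_gt _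
  have hg : 4 / (1 - c) < g := lt_of_le_of_lt (le_max_right _ _) hg'
  have hg2 : 2 ≤ g := by
    have : (2 : ℝ) < g := lt_of_le_of_lt (le_max_left _ _) hg'
    have : 2 < g := by exact_mod_cast this
    omega
  have hc1 : 0 < 1 - c := by linarith
  have hgpos : (0 : ℝ) < g := lt_trans (by positivity) hg
  have hg1 : 1 ≤ g := by
    have : 0 < g := by exact_mod_cast hgpos
    omega
  have hgc : 4 < (1 - c) * g := by
    rw [div_lt_iff₀ hc1] at hg
    linarith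
  set B : ℕ := 400000 * g ^ 2 with hB
  have hBpos : 0 < B := by positivity
  refine ⟨(Real.log 2) ^ 5 / (48 * B), by positivity, ?_⟩
  filter_upwards [eventually_poly_le (B ^ 2), eventually_ge_atTop 16,
    eventually_ge_atTop (g + 2), tendsto_natCast_atTop_atTop.eventually_ge_atTop (4 / (1 - c))] with
    n hpoly hn16 hng hnc
  set Λ := Nat.log 2 n with hΛ
  have hn0 : n ≠ 0 := by omega
  have hΛ1 : 1 ≤ Λ := by
    have : 2 ^ 1 ≤ n := by omega
    exact (Nat.le_log_iff_pow_le (by norm_num) hn0).2 this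
  set N0 := n * g / (g + 1) with hN0
  have hN0half : n / 2 ≤ N0 := by
    rw [hN0, Nat.le_div_iff_mul_le (by omega)]
    have : n / 2 * 2 ≤ n := Nat.div_mul_le_self _ _
    nlinarith
  have hN0g : N0 * (g + 1) ≤ n * g := Nat.div_mul_le_self _ _
  have hN0n : N0 ≤ n := by nlinarith
  have hsize : N0 + N0 / g ≤ n := by
    have h1 : N0 / g ≤ n - N0 := by
      apply Nat.div_le_of_le_mul
      have h2 : g * (n - N0) = n * g - N0 * g := by
        rw [Nat.mul_sub]; congr 1 <;> ring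
      rw [h2]
      have h3 : N0 * (g + 1) = N0 * g + N0 := by ring
      omega
    omega
  have hBΛ : (B * Λ ^ 4) ^ 2 ≤ N0 := by
    calc (B * Λ ^ 4) ^ 2 = B ^ 2 * Λ ^ 8 := by ring
      _ ≤ n / 2 := hpoly
      _ ≤ N0 := hN0half
  have hBΛpos : 0 < B * Λ ^ 4 := by positivity
  set Q := N0 / (B * Λ ^ 4) with hQ
  have hQ2 : 2 ≤ Q := by
    rw [hQ, Nat.le_div_iff_mul_le hBΛpos]
    have h2 : 2 ≤ B * Λ ^ 4 := by
      have h3 : 1 ≤ g ^ 2 := Nat.one_le_pow _ _ (by omega)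
      have h4 : 1 ≤ Λ ^ 4 := Nat.one_le_pow _ _ (by omega)
      have : 2 ≤ B := by rw [hB]; omega
      nlinarith
    calc 2 * (B * Λ ^ 4) ≤ (B * Λ ^ 4) * (B * Λ ^ 4) := Nat.mul_le_mul_right _ h2
      _ = (B * Λ ^ 4) ^ 2 := by ring
      _ ≤ N0 := hBΛ
  set L := Nat.log 2 Q with hL
  have hL1 : 1 ≤ L := (Nat.le_log_iff_pow_le (by norm_num) (by omega)).2 (by simpa using hQ2)
  have h2L : 2 ^ L ≤ Q := Nat.pow_log_le_self 2 (by omega)
  have hQ2L : Q < 2 ^ (L + 1) := Nat.lt_pow_succ_log_self (by norm_num) _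
  have hQn : Q ≤ n := (Nat.div_le_self _ _).trans hN0n
  have hLΛ : L ≤ Λ := Nat.log_mono_right hQn
  have hQmul : Q * (B * Λ ^ 4) ≤ N0 := Nat.div_mul_le_self _ _
  have hN1 : 400000 * g ^ 2 * L ^ 4 * 2 ^ L ≤ N0 := by
    calc 400000 * g ^ 2 * L ^ 4 * 2 ^ L = B * L ^ 4 * 2 ^ L := by rw [hB]
      _ ≤ B * Λ ^ 4 * Q := by gcongr
      _ = Q * (B * Λ ^ 4) := by ring
      _ ≤ N0 := hQmul
  have hN0lt : N0 < 2 ^ (L + 1) * (B * Λ ^ 4) := by
    exact (Nat.div_lt_iff_lt_mul hBΛpos).1 hQ2L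
  have hN2 : N0 ≤ 2 ^ (24 * L - 1) := by
    have h1 : N0 ^ 2 < (2 ^ (L + 1)) ^ 2 * N0 := by
      calc N0 ^ 2 < (2 ^ (L + 1) * (B * Λ ^ 4)) ^ 2 := Nat.pow_lt_pow_left hN0lt (by norm_num)
        _ = (2 ^ (L + 1)) ^ 2 * (B * Λ ^ 4) ^ 2 := by rw [mul_pow]
        _ ≤ (2 ^ (L + 1)) ^ 2 * N0 := Nat.mul_le_mul_left _ hBΛ
    have h2 : N0 < (2 ^ (L + 1)) ^ 2 := by
      rw [pow_two] at h1
      exact lt_of_mul_lt_mul_right h1 (Nat.zero_le _)
    calc N0 ≤ (2 ^ (L + 1)) ^ 2 := h2.le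
      _ = 2 ^ (2 * L + 2) := by rw [← pow_mul]; congr 1; ring
      _ ≤ 2 ^ (24 * L - 1) := Nat.pow_le_pow_right (by norm_num) (by omega)
  -- sizes of the cliques
  have hN08 : 8 ≤ N0 := by omega
  have hreal : (N0 : ℝ) * (g + 1) ≤ n * g := by exact_mod_cast hN0g
  have hreal2 : (n : ℝ) * g < (N0 + 1) * (g + 1) := by
    have : n * g < (N0 + 1) * (g + 1) := by
      exact (Nat.div_lt_iff_lt_mul (by omega)).1 (Nat.lt_succ_self _)
    exact_mod_cast this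
  have hgk : ((N0 / g : ℕ) : ℝ) ≤ N0 / g := Nat.cast_div_le
  have hkN : (N0 - N0 / g) + N0 / g ≤ N0 := by
    have := Nat.div_le_self N0 g
    omega
  have hk2' : 2 ≤ N0 - N0 / g := by
    have : N0 / g ≤ N0 / 2 := Nat.div_le_div_left hg2 (by norm_num)
    omega
  have ht : 6 * L * (2 ^ L / (6 * L)) ≤ 2 ^ L := Nat.mul_div_le _ _
  obtain ⟨G, hG1, hG2⟩ := graph_exists hL1 hg1 hN1 hN2 hsize hk2' hkN ht
  refine ⟨G, ?_, ?_⟩
  · intro s hs
    refine le_trans ?_ (hG1 s hs)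
    have h1 : ((N0 - N0 / g : ℕ) : ℝ) = N0 - ((N0 / g : ℕ) : ℝ) := by
      rw [Nat.cast_sub (Nat.div_le_self _ _)]
    rw [h1]
    have hgR : (2 : ℝ) ≤ g := by exact_mod_cast hg2
    have h2 : (N0 : ℝ) - N0 / g ≤ N0 - ((N0 / g : ℕ) : ℝ) := by linarith
    refine le_trans ?_ h2
    have hnc' : 4 ≤ (1 - c) * n := by
      rw [div_le_iff₀ hc1] at hnc
      linarith
    have h3 : (N0 : ℝ) - N0 / g = N0 * (g - 1) / g := by field_simp
    rw [h3, le_div_iff₀ hgpos]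
    have hn' : (0 : ℝ) ≤ n := Nat.cast_nonneg n
    have h4 : c * n * g * (g + 1) ≤ N0 * (g - 1) * (g + 1) := by
      have h5 : ((n : ℝ) * g - (g + 1)) * (g - 1) ≤ N0 * (g + 1) * (g - 1) := by
        apply mul_le_mul_of_nonneg_right _ (by linarith)
        linarith
      have h6 : (n : ℝ) * g * ((1 - c) * g / 2) ≤ n * g * ((g - 1) - c * (g + 1)) := by
        apply mul_le_mul_of_nonneg_left _ (by positivity)
        nlinarith
      have h7 : (g : ℝ) ^ 2 ≤ n * g * ((1 - c) * g / 2) := by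
        have : (n : ℝ) * g * ((1 - c) * g / 2) = ((1 - c) * n) * (g ^ 2) / 2 := by ring
        rw [this]
        have : (4 : ℝ) * g ^ 2 ≤ ((1 - c) * n) * (g ^ 2) :=
          mul_le_mul_of_nonneg_right hnc' (by positivity)
        have : (0 : ℝ) ≤ (g : ℝ) ^ 2 := by positivity
        linarith
      nlinarith
    exact le_of_mul_le_mul_right h4 (by linarith)
  · have hlogn : 0 < Real.log n := Real.log_pos (by exact_mod_cast (by omega : 1 < n))
    have hΛlog : (Λ : ℝ) * Real.log 2 ≤ Real.log n := by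
      have h1 : (2 : ℝ) ^ Λ ≤ n := by exact_mod_cast Nat.pow_log_le_self 2 hn0
      have h2 := Real.log_le_log (by positivity) h1
      rwa [Real.log_pow] at h2
    have hlog2 : 0 < Real.log 2 := Real.log_pos (by norm_num)
    have hΛ5 : ((Λ : ℝ) * Real.log 2) ^ 5 ≤ (Real.log n) ^ 5 :=
      pow_le_pow_left₀ (by positivity) hΛlog 5
    have hτ : ((2 ^ L / (6 * L) : ℕ) : ℝ) + 1 ≤ G.cliqueTransversalNumber := by
      exact_mod_cast hG2
    have ht2 : (2 : ℝ) ^ L < (((2 ^ L / (6 * L) : ℕ) : ℝ) + 1) * (6 * L) := by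
      have : 2 ^ L < (2 ^ L / (6 * L) + 1) * (6 * L) :=
        (Nat.div_lt_iff_lt_mul (by omega)).1 (Nat.lt_succ_self _)
      exact_mod_cast this
    have hN0R : (N0 : ℝ) < 2 ^ (L + 1) * (B * Λ ^ 4) := by exact_mod_cast hN0lt
    have hnN0 : (n : ℝ) ≤ 4 * N0 := by
      have : n ≤ 4 * N0 := by omega
      exact_mod_cast this
    have hLR : (L : ℝ) ≤ Λ := by exact_mod_cast hLΛ
    have hBR : (0 : ℝ) < B := by exact_mod_cast hBpos
    have hΛR : (0 : ℝ) < Λ := by exact_mod_cast hΛ1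
    have hLR0 : (0 : ℝ) < L := by exact_mod_cast hL1
    set τ : ℝ := (G.cliqueTransversalNumber : ℝ) with hτdef
    have hτ0 : 0 ≤ τ := Nat.cast_nonneg _
    -- 2 ^ L < τ * 6 * Λ
    have h1 : (2 : ℝ) ^ L ≤ τ * (6 * Λ) := by
      calc (2 : ℝ) ^ L ≤ (((2 ^ L / (6 * L) : ℕ) : ℝ) + 1) * (6 * L) := ht2.le
        _ ≤ τ * (6 * L) := mul_le_mul_of_nonneg_right hτ (by positivity)
        _ ≤ τ * (6 * Λ) := mul_le_mul_of_nonneg_left (by linarith) hτ0
    have h2 : (n : ℝ) ≤ τ * (48 * B * Λ ^ 5) := by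
      calc (n : ℝ) ≤ 4 * N0 := hnN0
        _ ≤ 4 * (2 ^ (L + 1) * (B * Λ ^ 4)) := by linarith
        _ = 2 ^ L * (8 * B * Λ ^ 4) := by rw [pow_succ]; ring
        _ ≤ (τ * (6 * Λ)) * (8 * B * Λ ^ 4) := mul_le_mul_of_nonneg_right h1 (by positivity)
        _ = τ * (48 * B * Λ ^ 5) := by ring
    rw [div_le_iff₀ (by positivity)]
    calc (Real.log 2) ^ 5 / (48 * B) * n
        ≤ (Real.log 2) ^ 5 / (48 * B) * (τ * (48 * B * Λ ^ 5)) :=
          mul_le_mul_of_nonneg_left h2 (by positivity)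
      _ = τ * ((Λ : ℝ) * Real.log 2) ^ 5 := by
          field_simp
      _ ≤ τ * (Real.log n) ^ 5 := mul_le_mul_of_nonneg_left hΛ5 hτ0

end Pool.Agent.helper38.EGT
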