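import Pool.Agent.helper23.HB.Stmts

open MeasureTheory ProbabilityTheory Set Filter Topology
open scoped ENNReal NNReal

namespace Pool.Agent.helper38.HB
open Pool.Agent.helper23.HB

theorem birth_replicate (τ : Lab → ℝ) (k : ℕ) :
    birth τ (List.replicate k false) = ∑ j ∈ Finset.range k, τ (List.replicate j false) := by
  induction k with
  | zero => simp
  | succ k ih =>
    rw [List.replicate_succ, birth_cons, death, ih, Finset.sum_range_succ]

theorem birth_vk (τ : Lab → ℝ) (k : ℕ) :
    birth τ (vk k) = ∑ j ∈ Finset.range (k + 1), τ (List.replicate j false) := by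
  rw [vk, birth_cons, death, birth_replicate, Finset.sum_range_succ]

theorem gauss_exp (c : ℝ) (t : ℝ≥0) :
    ∫⁻ x, ENNReal.ofReal (Real.exp (-c * x)) ∂(gaussianReal 0 t) =
      ENNReal.ofReal (Real.exp (c ^ 2 * t / 2)) := by
  rw [← ofReal_integral_eq_lintegral_ofReal (integrable_exp_mul_gaussianReal (-c))
    (Eventually.of_forall fun x => (Real.exp_pos _).le)]
  have h := congrFun (mgf_fun_id_gaussianReal (μ := 0) (v := t)) (-c)
  rw [mgf] at h
  rw [h]
  congr 2
  ring

theorem life_exp {Ω : Type} [MeasurableSpace Ω] {P : Measure Ω} [IsProbabilityMeasure P] {β : ℝ}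
    {T : Ω → Lab → ℝ} (hT : Life β P T) {θ : ℝ} (hθ : 0 < θ) (u : Lab) :
    ∫⁻ ω, ENNReal.ofReal (Real.exp (-θ * T ω u)) ∂P ≤
      1 - (1 - ENNReal.ofReal (Real.exp (-θ))) * ENNReal.ofReal (Real.exp (-β)) := by
  have hm : MeasurableSet {ω | (1 : ℝ) < T ω u} := measurableSet_lt measurable_const (hT.meas u)
  have h1 : ∀ ω, ENNReal.ofReal (Real.exp (-θ * T ω u)) +
      {ω | (1 : ℝ) < T ω u}.indicator (fun _ => 1 - ENNReal.ofReal (Real.exp (-θ))) ω ≤ 1 := by
    intro ω
    by_cases h : 1 < T ω u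
    · rw [Set.indicator_of_mem (by exact h)]
      have : ENNReal.ofReal (Real.exp (-θ * T ω u)) ≤ ENNReal.ofReal (Real.exp (-θ)) := by
        apply ENNReal.ofReal_le_ofReal
        apply Real.exp_le_exp.2
        nlinarith
      calc _ ≤ ENNReal.ofReal (Real.exp (-θ)) + (1 - ENNReal.ofReal (Real.exp (-θ))) := by gcongr
        _ = 1 := by
          apply add_tsub_cancel_of_le
          rw [ENNReal.ofReal_le_one]
          exact Real.exp_le_one_iff.2 (by linarith)
    · rw [Set.indicator_of_notMem (by exact h), add_zero, ENNReal.ofReal_le_one]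
      apply Real.exp_le_one_iff.2
      have := hT.pos ω u
      nlinarith
  have h2 : ∫⁻ ω, ENNReal.ofReal (Real.exp (-θ * T ω u)) ∂P +
      (1 - ENNReal.ofReal (Real.exp (-θ))) * P {ω | (1 : ℝ) < T ω u} ≤ 1 := by
    calc _ = ∫⁻ ω, (ENNReal.ofReal (Real.exp (-θ * T ω u)) +
        {ω | (1 : ℝ) < T ω u}.indicator (fun _ => 1 - ENNReal.ofReal (Real.exp (-θ))) ω) ∂P := by
          rw [lintegral_add_left]
          · rw [lintegral_indicator_const hm]
          · have := hT.meas u
            fun_prop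
      _ ≤ ∫⁻ _, 1 ∂P := lintegral_mono h1
      _ = 1 := by simp
  have h3 := hT.law u 1 zero_le_one
  rw [h3, mul_one] at h2
  refine ENNReal.le_sub_of_add_le_right ?_ h2
  exact ENNReal.mul_ne_top (by finiteness) ENNReal.ofReal_ne_top

theorem prod_exp {Ω : Type} [MeasurableSpace Ω] {P : Measure Ω} [IsProbabilityMeasure P] {β : ℝ}
    {T : Ω → Lab → ℝ} (hT : Life β P T) {θ : ℝ} (hθ : 0 < θ) (k : ℕ) :
    ∫⁻ ω, ENNReal.ofReal (Real.exp (-θ * birth (T ω) (vk k))) ∂P ≤
      (1 - (1 - ENNReal.ofReal (Real.exp (-θ))) * ENNReal.ofReal (Real.exp (-β))) ^ (k + 1) := by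
  have hinj : Function.Injective (fun j : ℕ => List.replicate j false) := by
    intro a b h
    have := congrArg List.length h
    simpa using this
  have hI : iIndepFun (fun (j : ℕ) ω =>
      ENNReal.ofReal (Real.exp (-θ * T ω (List.replicate j false)))) P := by
    have h1 := hT.indep.precomp hinj
    exact h1.comp (fun _ x => ENNReal.ofReal (Real.exp (-θ * x))) (fun _ => by fun_prop)
  have hp := lintegral_prod_eq_prod_lintegral_of_indepFun (Finset.range (k + 1)) _ hI
    (fun j => by
      have := hT.meas (List.replicate j false)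
      fun_prop)
  have e : ∀ ω, ENNReal.ofReal (Real.exp (-θ * birth (T ω) (vk k))) =
      ∏ j ∈ Finset.range (k + 1),
        ENNReal.ofReal (Real.exp (-θ * T ω (List.replicate j false))) := by
    intro ω
    rw [birth_vk, Finset.mul_sum, Real.exp_sum, ENNReal.ofReal_prod_of_nonneg]
    intro i _
    exact (Real.exp_pos _).le
  simp_rw [e]
  rw [hp]
  calc _ ≤ ∏ j ∈ Finset.range (k + 1),
      (1 - (1 - ENNReal.ofReal (Real.exp (-θ))) * ENNReal.ofReal (Real.exp (-β))) := by
        gcongr with j _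
        exact life_exp hT hθ _
    _ = _ := by rw [Finset.prod_const, Finset.card_range]

theorem mBIR (hR1 : St_R1) (hLINE : St_LINE) : St_BIR := by
  intro Ω _ P _ β lam hβ hlam S
  set c : ℝ := lam + 1 / 2 with hc
  have hc0 : 0 < c := by rw [hc]; linarith
  set θ : ℝ := c ^ 2 / 2 with hθd
  have hθ : 0 < θ := by positivity
  set q : ℝ≥0∞ := 1 - (1 - ENNReal.ofReal (Real.exp (-θ))) * ENNReal.ofReal (Real.exp (-β)) with hq
  have hq1 : q < 1 := by
    rw [hq]
    apply ENNReal.sub_lt_self ENNReal.one_ne_top one_ne_zero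
    apply mul_ne_zero
    · rw [Ne, tsub_eq_zero_iff_le, not_le, ENNReal.ofReal_lt_one]
      exact Real.exp_lt_one_iff.2 (by linarith)
    · rw [Ne, ENNReal.ofReal_eq_zero, not_le]
      exact Real.exp_pos _
  -- functional
  let F : ℕ → ((Lab → ℝ) × (Lab → Pth)) → ℝ≥0∞ := fun k x =>
    ENNReal.ofReal (Real.exp (-c * (line x.1 x.2 (vk k) (birth x.1 (vk k)) +
      c * birth x.1 (vk k))))
  have hFm : ∀ k, Measurable (F k) := by
    intro k
    have h1 : Measurable (fun x : (Lab → ℝ) × (Lab → Pth) => birth x.1 (vk k)) :=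
      (measurable_birth (vk k)).comp measurable_fst
    have h2 : Measurable (fun x : (Lab → ℝ) × (Lab → Pth) =>
        line x.1 x.2 (vk k) (birth x.1 (vk k))) :=
      (measurable_line (vk k)).comp (measurable_id.prodMk h1)
    simp only [F]
    fun_prop
  have hTm : Measurable S.T := measurable_pi_lambda _ S.life.meas
  have hBm : Measurable S.B := measurable_pi_lambda _ S.noiseB.meas
  have hint : ∀ k, ∫⁻ ω, F k (S.T ω, S.B ω) ∂P ≤ q ^ (k + 1) := by
    intro k
    have h1 : ∫⁻ ω, F k (S.T ω, S.B ω) ∂P =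
        ∫⁻ ω, ∫⁻ ω', F k (S.T ω, S.B ω') ∂P ∂P := by
      have e1 : ∫⁻ ω, F k (S.T ω, S.B ω) ∂P =
          ∫⁻ x, F k x ∂(P.map (fun ω => (S.T ω, S.B ω))) := by
        rw [lintegral_map (hFm k) (hTm.prodMk hBm)]
      have : IsProbabilityMeasure (P.map S.T) :=
        Measure.isProbabilityMeasure_map hTm.aemeasurable
      have : IsProbabilityMeasure (P.map S.B) :=
        Measure.isProbabilityMeasure_map hBm.aemeasurable
      rw [e1, (indepFun_iff_map_prod_eq_prod_map_map hTm.aemeasurable hBm.aemeasurable).1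
        S.indepTB, lintegral_prod _ (hFm k).aemeasurable,
        lintegral_map (hFm k).lintegral_prod_right' hTm]
      apply lintegral_congr
      intro ω
      have hm2 : Measurable (fun b => F k (S.T ω, b)) :=
        (hFm k).comp (measurable_const.prodMk measurable_id)
      rw [lintegral_map hm2 hBm]
    rw [h1]
    refine le_trans (le_of_eq (lintegral_congr fun ω => ?_)) (prod_exp S.life hθ k)
    -- inner integral
    set t : ℝ≥0 := ⟨birth (S.T ω) (vk k), birth_nonneg (S.life.pos ω) _⟩ with ht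
    have htc : (t : ℝ) = birth (S.T ω) (vk k) := rfl
    have hbm := hLINE Ω P S.B S.noiseB (S.T ω) (S.life.pos ω) (vk k)
    have hlaw := hbm.bm.hasLaw_eval t
    have e2 : ∀ ω', F k (S.T ω, S.B ω') = ENNReal.ofReal (Real.exp (-(c ^ 2 * t))) *
        ENNReal.ofReal (Real.exp (-c * line (S.T ω) (S.B ω') (vk k) (t : ℝ))) := by
      intro ω'
      rw [← ENNReal.ofReal_mul (Real.exp_pos _).le, ← Real.exp_add]
      simp only [F, htc]
      congr 2
      ring
    simp_rw [e2]
    have hmm : Measurable (fun ω' =>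
        ENNReal.ofReal (Real.exp (-c * line (S.T ω) (S.B ω') (vk k) (t : ℝ)))) := by
      have := hbm.meas (t : ℝ)
      fun_prop
    rw [lintegral_const_mul _ hmm]
    have e3 : ∫⁻ ω', ENNReal.ofReal (Real.exp (-c * line (S.T ω) (S.B ω') (vk k) (t : ℝ))) ∂P =
        ENNReal.ofReal (Real.exp (c ^ 2 * t / 2)) := by
      rw [← gauss_exp c t, ← hlaw.map_eq, lintegral_map' (by fun_prop) hlaw.aemeasurable]
    rw [e3, ← ENNReal.ofReal_mul (Real.exp_pos _).le, ← Real.exp_add, ← htc]
    congr 2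
    rw [hθd]
    ring
  have hsum : ∫⁻ ω, ∑' k, F k (S.T ω, S.B ω) ∂P ≠ ∞ := by
    have hFk : ∀ k, AEMeasurable (fun ω => F k (S.T ω, S.B ω)) P :=
      fun k => ((hFm k).comp (hTm.prodMk hBm)).aemeasurable
    rw [lintegral_tsum hFk]
    refine ne_top_of_le_ne_top ?_ (ENNReal.tsum_le_tsum hint)
    have : ∑' k : ℕ, q ^ (k + 1) = q * (1 - q)⁻¹ := by
      simp_rw [pow_succ']
      rw [ENNReal.tsum_mul_left, ENNReal.tsum_geometric]
    rw [this]
    apply ENNReal.mul_ne_top (ne_top_of_lt hq1)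
    rw [Ne, ENNReal.inv_eq_top, tsub_eq_zero_iff_le, not_le]
    exact hq1
  have hae : ∀ᵐ ω ∂P, ∑' k, F k (S.T ω, S.B ω) < ∞ := by
    apply ae_lt_top _ hsum
    exact Measurable.tsum (fun k => (hFm k).comp (hTm.prodMk hBm))
  filter_upwards [hae] with ω hω
  have h0 : Tendsto (fun k => F k (S.T ω, S.B ω)) atTop (𝓝 0) :=
    ENNReal.tendsto_atTop_zero_of_tsum_ne_top hω.ne
  have h1 : Tendsto (fun k => line (S.T ω) (S.B ω) (vk k) (birth (S.T ω) (vk k)) +
      c * birth (S.T ω) (vk k)) atTop atTop := by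
    have h2 : Tendsto (fun k => Real.exp (-c * (line (S.T ω) (S.B ω) (vk k)
        (birth (S.T ω) (vk k)) + c * birth (S.T ω) (vk k)))) atTop (𝓝 0) := by
      have := (ENNReal.tendsto_toReal ENNReal.zero_ne_top).comp h0
      rw [ENNReal.toReal_zero] at this
      refine this.congr fun k => ?_
      simp only [Function.comp, F]
      rw [ENNReal.toReal_ofReal (Real.exp_pos _).le]
    have h3 := Real.tendsto_exp_comp_nhds_zero.1 h2
    have h4 := h3.const_mul_atBot_of_neg (r := -c⁻¹) (by
      have := inv_pos.2 hc0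
      linarith)
    refine h4.congr fun k => ?_
    field_simp
  refine tendsto_atTop_mono (fun k => ?_) h1
  have hr := (hR1.1 lam (line (S.T ω) (S.B ω) (vk k)) (S.R ω (vk k)) (line_continuous _ _ _)
    (S.rad ω (vk k))) 0 (birth (S.T ω) (vk k)) le_rfl (birth_nonneg (S.life.pos ω) _)
  have hpos := (S.rad ω (vk k)).pos 0 le_rfl
  have hz := line_of_nonpos (S.life.pos ω) (S.B ω) (vk k) (t := 0) le_rfl
  rw [hz] at hr
  rw [hc]
  linarith

end Pool.Agent.helper38.HB
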