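import Pool.Agent.helper23.HB.Stmts

open MeasureTheory ProbabilityTheory Set Filter Topology
open scoped ENNReal NNReal

namespace Pool.Agent.helper38.HB
open Pool.Agent.helper23.HB

/-- gluing two independent Brownian motions at the time `d` -/
theorem glue {Ω : Type} [MeasurableSpace Ω] {P : Measure Ω} {X Y : ℝ≥0 → Ω → ℝ}
    (hX : IsPreBrownianReal X P) (hY : IsPreBrownianReal Y P)
    (hXY : IndepFun (fun ω t => X t ω) (fun ω t => Y t ω) P) (d : ℝ≥0) :
    IsPreBrownianReal (fun (t : ℝ≥0) ω => X (min t d) ω + Y (t - d) ω) P := by
  have hP : IsProbabilityMeasure P := hX.isGaussianProcess.isProbabilityMeasure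
  have hXd : IsGaussianProcess (fun (t : ℝ≥0) => X (min t d)) P :=
    hX.isGaussianProcess.comp_right (fun t => min t d)
  have hYd : IsGaussianProcess (fun (t : ℝ≥0) => Y (t - d)) P :=
    hY.isGaussianProcess.comp_right (fun t => t - d)
  have hG : IsGaussianProcess (fun (t : ℝ≥0) ω => X (min t d) ω + Y (t - d) ω) P := by
    constructor
    intro I
    have h1 := hXd.hasGaussianLaw I
    have h2 := hYd.hasGaussianLaw I
    have hi : IndepFun (fun ω => I.restrict (fun t => X (min t d) ω))
        (fun ω => I.restrict (fun t => Y (t - d) ω)) P := by
      have := hXY.comp (φ := fun (f : ℝ≥0 → ℝ) => I.restrict (fun t => f (min t d)))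
        (ψ := fun (f : ℝ≥0 → ℝ) => I.restrict (fun t => f (t - d)))
        (measurable_pi_lambda _ fun i => measurable_pi_apply _)
        (measurable_pi_lambda _ fun i => measurable_pi_apply _)
      exact this
    exact (hi.hasGaussianLaw h1 h2).fun_add
  have mX : ∀ t, MemLp (X t) 2 P := fun t =>
    (hX.isGaussianProcess.hasGaussianLaw_eval t).memLp_two
  have mY : ∀ t, MemLp (Y t) 2 P := fun t =>
    (hY.isGaussianProcess.hasGaussianLaw_eval t).memLp_two
  refine hG.isPreBrownianReal_of_covariance (fun t => ?_) (fun s t hst => ?_)
  · have e : (fun ω => X (min t d) ω + Y (t - d) ω) = X (min t d) + Y (t - d) := rfl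
    show ∫ ω, (X (min t d) ω + Y (t - d) ω) ∂P = 0
    rw [integral_add (hX.integrable_eval _) (hY.integrable_eval _), hX.integral_eval,
      hY.integral_eval, add_zero]
  · have hc : ∀ s t, cov[X s, Y t; P] = 0 := by
      intro s t
      have : IndepFun (X s) (Y t) P :=
        hXY.comp (φ := fun (f : ℝ≥0 → ℝ) => f s) (ψ := fun (f : ℝ≥0 → ℝ) => f t)
          (measurable_pi_apply _) (measurable_pi_apply _)
      exact this.covariance_eq_zero (mX s) (mY t)
    have hc' : ∀ s t, cov[Y s, X t; P] = 0 := by
      intro s t
      rw [covariance_comm]; exact hc t s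
    show cov[X (min s d) + Y (s - d), X (min t d) + Y (t - d); P] = s
    rw [covariance_add_left (mX _) (mY _) ((mX _).add (mY _)),
      covariance_add_right (mX _) (mX _) (mY _), covariance_add_right (mY _) (mX _) (mY _),
      hc, hc', hX.covariance_eval, hY.covariance_eval]
    have h1 : min (min s d) (min t d) = min s d := min_eq_left (min_le_min_right d hst)
    have h2 : min (s - d) (t - d) = s - d := min_eq_left (tsub_le_tsub_right hst d)
    rw [h1, h2, add_zero, zero_add, ← NNReal.coe_add]
    congr 1
    rcases le_total s d with h | h
    · rw [min_eq_left h, tsub_eq_zero_of_le h, add_zero]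
    · rw [min_eq_right h, add_tsub_cancel_of_le h]

theorem mLINE (hIND : St_IND) : St_LINE := by
  intro Ω _ P _ B hB τ hτ v
  refine ⟨fun ω => line_continuous τ (B ω) v, fun t => ?_, ?_⟩
  · exact (measurable_line_left v t).comp (measurable_const.prodMk (measurable_pi_lambda _ hB.meas))
  · induction v with
    | nil =>
      have : (fun (t : ℝ≥0) ω => line τ (B ω) [] (t : ℝ)) =
          (fun (t : ℝ≥0) ω => (B ω [] : ℝ → ℝ) (t : ℝ)) := by
        funext t ω; rw [line_nil]
      rw [this]
      exact hB.bm []
    | cons x u ih =>
      set d : ℝ≥0 := ⟨death τ u, (death_pos hτ u).le⟩ with hd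
      have hdc : (d : ℝ) = death τ u := rfl
      have hind : IndepFun (fun ω (t : ℝ≥0) => line τ (B ω) u (t : ℝ))
          (fun ω (t : ℝ≥0) => (B ω (x :: u) : ℝ → ℝ) (t : ℝ)) P := by
        have hI := hIND Ω P Pth B hB.meas hB.indep Bool
          (fun b => if b then {w : Lab | w <:+ u} else {x :: u}) (by
            have hd : Disjoint {w : Lab | w <:+ u} ({x :: u} : Set Lab) := by
              rw [Set.disjoint_singleton_right]
              intro h
              have := List.IsSuffix.length_le h
              simp at this
            intro i j hij
            cases i <;> cases j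
            · exact absurd rfl hij
            · simpa using hd.symm
            · simpa using hd
            · exact absurd rfl hij)
        have hI2 := hI.indepFun (i := true) (j := false) (by decide)
        classical
        let ext1 : ((if true then {w : Lab | w <:+ u} else {x :: u} : Set Lab) → Pth) → Lab → Pth :=
          fun f w => if h : w ∈ (if true then {w : Lab | w <:+ u} else {x :: u} : Set Lab)
            then f ⟨w, h⟩ else ⟨fun _ => 0, continuous_const, fun _ _ => rfl⟩
        have hext : Measurable ext1 := by
          refine measurable_pi_lambda _ fun w => ?_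
          by_cases h : w ∈ (if true then {w : Lab | w <:+ u} else {x :: u} : Set Lab)
          · have : (fun f => ext1 f w) = fun f => f ⟨w, h⟩ := by
              funext f; exact dif_pos h
            rw [this]
            exact measurable_pi_apply _
          · have : (fun f => ext1 f w) = fun f =>
                ⟨fun _ => 0, continuous_const, fun _ _ => rfl⟩ := by
              funext f; exact dif_neg h
            rw [this]
            exact measurable_const
        have hφ : Measurable (fun (f : (if true then {w : Lab | w <:+ u} else {x :: u} : Set Lab)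
            → Pth) (t : ℝ≥0) => line τ (ext1 f) u (t : ℝ)) := by
          refine measurable_pi_lambda _ fun t => ?_
          exact (measurable_line_left u t).comp (measurable_const.prodMk hext)
        have hmem : x :: u ∈ (if false then {w : Lab | w <:+ u} else {x :: u} : Set Lab) := by
          simp
        have hψ : Measurable (fun (f : (if false then {w : Lab | w <:+ u} else {x :: u} : Set Lab)
            → Pth) (t : ℝ≥0) => (f ⟨x :: u, hmem⟩ : ℝ → ℝ) (t : ℝ)) := by
          refine measurable_pi_lambda _ fun t => ?_
          exact (measurable_pth_apply (t : ℝ)).comp (measurable_pi_apply _)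
        have hI3 := hI2.comp hφ hψ
        have e1 : ((fun (f : (if true then {w : Lab | w <:+ u} else {x :: u} : Set Lab)
            → Pth) (t : ℝ≥0) => line τ (ext1 f) u (t : ℝ)) ∘
            fun ω (w : (if true then {w : Lab | w <:+ u} else {x :: u} : Set Lab)) => B ω w) =
            (fun ω (t : ℝ≥0) => line τ (B ω) u (t : ℝ)) := by
          funext ω t
          simp only [Function.comp]
          rw [line_congr (τ := τ) (τ' := τ) (b' := B ω) (fun _ _ => rfl)]
          intro w hw
          have hw' : w ∈ (if true then {w : Lab | w <:+ u} else {x :: u} : Set Lab) := by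
            simpa using hw
          exact dif_pos hw'
        rw [← e1]
        exact hI3
      have hg := glue ih (hB.bm (x :: u)) hind d
      have : (fun (t : ℝ≥0) ω => line τ (B ω) (x :: u) (t : ℝ)) =
          (fun (t : ℝ≥0) ω => line τ (B ω) u ((min t d : ℝ≥0) : ℝ) +
            (B ω (x :: u) : ℝ → ℝ) ((t - d : ℝ≥0) : ℝ)) := by
        funext t ω
        rw [line_cons, ← hdc, NNReal.coe_min]
        congr 1
        rcases le_total t d with h | h
        · rw [tsub_eq_zero_of_le h, NNReal.coe_zero, Pth.zero, Pth.of_nonpos]
          rw [sub_nonpos]; exact_mod_cast h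
        · rw [NNReal.coe_sub h]
      rw [this]
      exact hg

end Pool.Agent.helper38.HB
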